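import Pool.Agent.R238.HB.Defs

/-! Pure polynomial facts about the golden-ratio recurrence `z (i+4) = - f z (i+2) - z i`. -/

noncomputable section

namespace Pool.Agent.R238.HB

/-- closed-path defect, scaled by `n^2` -/
def G (M n β z0 z1 z2 z3 z4 : ℝ) : ℝ :=
  (M*z1-β*z0-z2)*(n*z1-(M*z1-β*z0-z2))
  + ((M*z1-β*z0-z2)+(M*z2-β*z1-z3))*(n*z2-(M*z2-β*z1-z3))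
  + ((M*z1-β*z0-z2)+(M*z2-β*z1-z3)+(M*z3-β*z2-z4))*(n*z3-(M*z3-β*z2-z4))

def pp (M n β f : ℝ) : ℝ := - M*f*n + M^2*f - 2*f*n*β + 2*f*β^2 - M*n + M^2 + f*n - 2*f*β - n*β + β^2 - 2*β
def uu (M n β f : ℝ) : ℝ := - 2*M*f*n + 2*M^2*f - 2*f*n*β + 2*f*β^2 - M*n + M^2 + 2*f*n - 4*f*β - 2*n*β + β^2 + f + n - 2*β + 1
def cPp (M n β f : ℝ) : ℝ := (7/2)*M*f*n + (9/2)*M*f*β - (7/2)*M^2*f + (3/2)*f*n*β - (7/2)*f*β^2 + (9/2)*M*f + (9/2)*M*n - M*β - (9/2)*M^2 - 6*f*n + 8*f*β + 3*n*β - (9/2)*β^2 - M - (7/2)*f - 2*n + (7/2)*β - (9/2)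
def cQq (M n β f : ℝ) : ℝ := - (1/2)*M*f*n - (13/2)*M*f*β + (1/2)*M^2*f + (9/2)*f*n*β + (1/2)*f*β^2 - (13/2)*M*f + (13/2)*M*n + 7*M*β - (13/2)*M^2 + 2*f*n + 6*f*β - n*β - (13/2)*β^2 + 7*M + (1/2)*f - 6*n - (1/2)*β - (13/2)

def BB1 (f a0 a1 b0 b1 : ℝ) : ℝ := f*a0*b0+a0*b1-a1*b0+a1*b1
def BB2 (f a0 a1 b0 b1 : ℝ) : ℝ := a0*b0+f*(a0*b1-a1*b0)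

lemma nn_id (f a0 a1 b0 b1 : ℝ) (hf : f^2 - f - 1 = 0) :
    BB1 f a0 a1 b0 b1 ^2 + BB2 f a0 a1 b0 b1 ^2 - f * BB1 f a0 a1 b0 b1 * BB2 f a0 a1 b0 b1
      = (a0^2-(f-1)*a0*a1+a1^2)*(b0^2+(f-1)*b0*b1+b1^2) := by
  unfold BB1 BB2
  linear_combination (a0*a1*b0^2*f - a0^2*b0*b1*f + a0*a1*b0*b1 + a0*a1*b0^2 - a0*a1*b1^2 - a0^2*b0*b1 + a1^2*b0*b1) * hf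

lemma z0_id (M n β f z0 z1 z2 z3 : ℝ) (hf : f^2 - f - 1 = 0) :
    G M n β z0 z1 z2 z3 (-f*z2-z0) - G M n β (-f*z3-z1) (f*(z0+z2)) (f*(z1+z3)) (-f*z0-z2) (-f*z1-z3)
      + G M n β z1 z2 z3 (-f*z2-z0) (-f*z3-z1) - G M n β (f*(z0+z2)) (f*(z1+z3)) (-f*z0-z2) (-f*z1-z3) z0
      = pp M n β f * BB1 f (z2+(f-1)*z1+z0) (z3+(f-1)*z2+z1) (z2-(f-1)*z1+z0) (z3-(f-1)*z2+z1)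
        + (uu M n β f - f * pp M n β f) *
          BB2 f (z2+(f-1)*z1+z0) (z3+(f-1)*z2+z1) (z2-(f-1)*z1+z0) (z3-(f-1)*z2+z1) := by
  unfold G pp uu BB1 BB2
  linear_combination (2*M*f^2*n*z0*z2 - 2*M*f^2*n*z1*z3 - 2*M*f^2*n*z1^2 + 2*M*f^2*n*z2^2 - 2*M^2*f^2*z0*z2 + 2*M^2*f^2*z1*z3 + 2*M^2*f^2*z1^2 - 2*M^2*f^2*z2^2 + 4*f^2*n*z0*z2*β - 4*f^2*n*z1*z3*β - 4*f^2*n*z1^2*β + 4*f^2*n*z2^2*β - 4*f^2*z0*z2*β^2 + 4*f^2*z1*z3*β^2 + 4*f^2*z1^2*β^2 - 4*f^2*z2^2*β^2 - 2*M*f*n*z0*z2 + 2*M*f*n*z1*z3 - 3*M*f*n*z2^2 + 2*M^2*f*z0*z2 - 2*M^2*f*z1*z3 + 3*M^2*f*z2^2 - 2*f*n*z0*z2*β + 2*f*n*z1*z3*β - 4*f*n*z2^2*β + 2*f*z0*z2*β^2 - 2*f*z1*z3*β^2 + 4*f*z2^2*β^2 - 2*f^2*n*z0*z2 + 2*f^2*n*z1*z3 + 2*f^2*n*z1^2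 - 2*f^2*n*z2^2 + 4*f^2*z0*z2*β - 4*f^2*z1*z3*β - 4*f^2*z1^2*β + 4*f^2*z2^2*β - 3*M*n*z0*z2 + M*n*z0*z3 - 2*M*n*z0^2 - M*n*z1*z2 - M*n*z1*z3 + M*n*z1^2 - M*n*z2*z3 - 2*M*n*z2^2 - 2*M*n*z3^2 - M*z0*z1*β + M*z0*z3*β - 4*M*z1*z2*β - 2*M*z1*z3*β - M*z1^2*β - 3*M*z2*z3*β - M*z2^2*β - M*z3^2*β + 3*M^2*z0*z2 - M^2*z0*z3 + 2*M^2*z0^2 + M^2*z1*z2 + M^2*z1*z3 - M^2*z1^2 + M^2*z2*z3 + 2*M^2*z2^2 + 2*M^2*z3^2 + 4*f*n*z0*z2 - 4*f*n*z1*z3 - 2*f*n*z1^2 + 5*f*n*z2^2 - 4*f*z0*z2*β + 4*f*z1*z3*β - 6*f*z2^2*β - 6*n*z0*z2*β - 2*n*z0^2*β + n*z1*z2*β + 2*n*z1*z3*β + 3*n*z1^2*β + n*z2*z3*β - 3*n*z2^2*β - n*z3^2*β + z0*z1*β^2 + 5*z0*z2*β^2 + 2*z0^2*β^2 + 2*z1*z2*β^2 + z1*z3*β^2 - z1^2*β^2 + z2*z3*β^2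 + 3*z2^2*β^2 + 2*z3^2*β^2 - M*z0*z1 + M*z0*z2 + 3*M*z0*z3 - M*z0^2 - M*z1*z2 + M*z2^2 - M*z3^2 + 2*f*z0*z2 - 2*f*z1*z3 - f*z1^2 + 2*f*z2^2 + n*z0*z1 + 2*n*z0*z2 - 2*n*z0*z3 + 2*n*z0^2 + n*z1*z2 - n*z1^2 + n*z3^2 - 2*z0*z1*β - 8*z0*z2*β - 3*z0^2*β - z1*z2*β + z1*z3*β + 3*z1^2*β + z2*z3*β - 4*z2^2*β - z3^2*β + z0*z1 + 2*z0*z2 - z0*z3 + 2*z0^2 - z1*z3 - z2*z3) * hf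

lemma z1_id (M n β f z0 z1 z2 z3 : ℝ) (hf : f^2 - f - 1 = 0) :
    G M n β z1 z2 z3 (-f*z2-z0) (-f*z3-z1) - G M n β (f*(z0+z2)) (f*(z1+z3)) (-f*z0-z2) (-f*z1-z3) z0
      + G M n β z2 z3 (-f*z2-z0) (-f*z3-z1) (f*(z0+z2)) - G M n β (f*(z1+z3)) (-f*z0-z2) (-f*z1-z3) z0 z1
      = -(uu M n β f - f * pp M n β f) * BB1 f (z2+(f-1)*z1+z0) (z3+(f-1)*z2+z1) (z2-(f-1)*z1+z0) (z3-(f-1)*z2+z1)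
        + (pp M n β f + f * (uu M n β f - f * pp M n β f)) *
          BB2 f (z2+(f-1)*z1+z0) (z3+(f-1)*z2+z1) (z2-(f-1)*z1+z0) (z3-(f-1)*z2+z1) := by
  unfold G pp uu BB1 BB2
  linear_combination (2*M*f^3*n*z0*z2 - 2*M*f^3*n*z1*z3 - 2*M*f^3*n*z1^2 + 2*M*f^3*n*z2^2 - 2*M^2*f^3*z0*z2 + 2*M^2*f^3*z1*z3 + 2*M^2*f^3*z1^2 - 2*M^2*f^3*z2^2 + 4*f^3*n*z0*z2*β - 4*f^3*n*z1*z3*β - 4*f^3*n*z1^2*β + 4*f^3*n*z2^2*β - 4*f^3*z0*z2*β^2 + 4*f^3*z1*z3*β^2 + 4*f^3*z1^2*β^2 - 4*f^3*z2^2*β^2 - 2*M*f^2*n*z0*z2 + 2*M*f^2*n*z1*z3 + 2*M*f^2*n*z1^2 - 3*M*f^2*n*z2^2 + 2*M^2*f^2*z0*z2 - 2*M^2*f^2*z1*z3 - 2*M^2*f^2*z1^2 + 3*M^2*f^2*z2^2 - 2*f^2*n*z0*z2*β + 2*f^2*n*z1*z3*β + 2*f^2*n*z1^2*β - 4*f^2*n*z2^2*β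 + 2*f^2*z0*z2*β^2 - 2*f^2*z1*z3*β^2 - 2*f^2*z1^2*β^2 + 4*f^2*z2^2*β^2 - 2*f^3*n*z0*z2 + 2*f^3*n*z1*z3 + 2*f^3*n*z1^2 - 2*f^3*n*z2^2 + 4*f^3*z0*z2*β - 4*f^3*z1*z3*β - 4*f^3*z1^2*β + 4*f^3*z2^2*β - 4*M*f*n*z0*z2 + 4*M*f*n*z1*z3 + 3*M*f*n*z1^2 - 2*M*f*n*z2^2 + 4*M^2*f*z0*z2 - 4*M^2*f*z1*z3 - 3*M^2*f*z1^2 + 2*M^2*f*z2^2 - 8*f*n*z0*z2*β + 8*f*n*z1*z3*β + 6*f*n*z1^2*β - 5*f*n*z2^2*β + 6*f*z0*z2*β^2 - 6*f*z1*z3*β^2 - 4*f*z1^2*β^2 + 3*f*z2^2*β^2 + 4*f^2*n*z0*z2 - 4*f^2*n*z1*z3 - 4*f^2*n*z1^2 + 5*f^2*n*z2^2 - 4*f^2*z0*z2*β + 4*f^2*z1*z3*β + 4*f^2*z1^2*β - 6*f^2*z2^2*β - M*n*z0*z1 + M*n*z0*z3 - 2*M*n*z0^2 + M*n*z1*z3 - M*n*z1^2 + M*n*z2*z3 + M*n*z2^2 + M*n*z3^2 - M*z0*z1*β + M*z0*z2*β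 + 3*M*z0*z3*β - M*z0^2*β - M*z1*z2*β + M*z2^2*β - M*z3^2*β + M^2*z0*z1 - M^2*z0*z3 + 2*M^2*z0^2 - M^2*z1*z3 + M^2*z1^2 - M^2*z2*z3 - M^2*z2^2 - M^2*z3^2 + 4*f*n*z0*z2 - 4*f*n*z1*z3 - 3*f*n*z1^2 + f*n*z2^2 - 8*f*z0*z2*β + 8*f*z1*z3*β + 6*f*z1^2*β - 4*f*z2^2*β + 2*f^2*z0*z2 - 2*f^2*z1*z3 - 2*f^2*z1^2 + 2*f^2*z2^2 + n*z0*z2*β - n*z0*z3*β - n*z0^2*β - n*z1^2*β + n*z2^2*β + 2*n*z3^2*β - z0*z2*β^2 - z0*z3*β^2 + 2*z0^2*β^2 + z1*z2*β^2 + z1*z3*β^2 + z1^2*β^2 + z2*z3*β^2 - 3*M*z0*z1 - M*z0*z2 - M*z0^2 + M*z1*z3 - M*z1^2 + 3*M*z2*z3 + M*z2^2 + M*z3^2 + 2*f*z0*z2 - 2*f*z1*z3 - 2*f*z1^2 + f*z2^2 + 2*n*z0*z1 - 2*n*z0*z2 + n*z0^2 + 2*n*z1^2 - 2*n*z2*z3 - 2*n*z2^2 - 2*n*z3^2 - z0*z3*β -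 z0^2*β - z1*z2*β - z1^2*β - z2*z3*β - z2^2*β + 2*z3^2*β + z0*z1 - z0*z2 + z0*z3 + 2*z1^2 - z2*z3 - 2*z2^2 - 2*z3^2) * hf

lemma s_id (M n β f z0 z1 z2 z3 : ℝ) (hf : f^2 - f - 1 = 0) :
    G M n β z0 z1 z2 z3 (-f*z2-z0) + G M n β z1 z2 z3 (-f*z2-z0) (-f*z3-z1)
      + G M n β z2 z3 (-f*z2-z0) (-f*z3-z1) (f*(z0+z2))
      + G M n β z3 (-f*z2-z0) (-f*z3-z1) (f*(z0+z2)) (f*(z1+z3))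
      + G M n β (-f*z2-z0) (-f*z3-z1) (f*(z0+z2)) (f*(z1+z3)) (-f*z0-z2)
      + G M n β (-f*z3-z1) (f*(z0+z2)) (f*(z1+z3)) (-f*z0-z2) (-f*z1-z3)
      + G M n β (f*(z0+z2)) (f*(z1+z3)) (-f*z0-z2) (-f*z1-z3) z0
      + G M n β (f*(z1+z3)) (-f*z0-z2) (-f*z1-z3) z0 z1
      + G M n β (-f*z0-z2) (-f*z1-z3) z0 z1 z2
      + G M n β (-f*z1-z3) z0 z1 z2 z3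
      = cPp M n β f * ((z2+(f-1)*z1+z0)^2-(f-1)*(z2+(f-1)*z1+z0)*(z3+(f-1)*z2+z1)+(z3+(f-1)*z2+z1)^2)
       + cQq M n β f * ((z2-(f-1)*z1+z0)^2+(f-1)*(z2-(f-1)*z1+z0)*(z3-(f-1)*z2+z1)+(z3-(f-1)*z2+z1)^2) := by
  unfold G cPp cQq
  linear_combination (4*M*f^2*n*z1*z2 + 11*M*f^2*z1*z2*β - 4*M^2*f^2*z1*z2 - 3*f^2*n*z1*z2*β - 4*f^2*z1*z2*β^2 + 3*M*f*n*z0*z2 - 10*M*f*n*z1*z2 + 3*M*f*n*z1*z3 - 2*M*f*z0*z2*β - 30*M*f*z1*z2*β - 2*M*f*z1*z3*β + 11*M*f^2*z1*z2 - 3*M^2*f*z0*z2 + 10*M^2*f*z1*z2 - 3*M^2*f*z1*z3 + 6*f*n*z0*z2*β + 10*f*n*z1*z2*β + 6*f*n*z1*z3*β - 3*f*z0*z2*β^2 + 10*f*z1*z2*β^2 - 3*f*z1*z3*β^2 - 8*f^2*n*z1*z2 + 2*f^2*z1*z2*β - 2*M*f*z0*z2 - 30*M*f*z1*z2 - 2*M*f*z1*z3 -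 2*M*n*z0*z1 + 12*M*n*z0*z2 + 2*M*n*z0*z3 + 5*M*n*z0^2 + 2*M*n*z1*z2 + 12*M*n*z1*z3 + 5*M*n*z1^2 - 2*M*n*z2*z3 + 5*M*n*z2^2 + 5*M*n*z3^2 - 5*M*z0*z1*β + 8*M*z0*z2*β + 5*M*z0*z3*β + 2*M*z0^2*β + 10*M*z1*z2*β + 8*M*z1*z3*β + 2*M*z1^2*β - 5*M*z2*z3*β + 2*M*z2^2*β + 2*M*z3^2*β + 2*M^2*z0*z1 - 12*M^2*z0*z2 - 2*M^2*z0*z3 - 5*M^2*z0^2 - 2*M^2*z1*z2 - 12*M^2*z1*z3 - 5*M^2*z1^2 + 2*M^2*z2*z3 - 5*M^2*z2^2 - 5*M^2*z3^2 - 4*f*n*z0*z2 + 20*f*n*z1*z2 - 4*f*n*z1*z3 + 14*f*z0*z2*β + 14*f*z1*z3*β - 4*f^2*z1*z2 + n*z0*z1*β - n*z0*z3*β + 2*n*z0^2*β - 6*n*z1*z2*β + 2*n*z1^2*β + n*z2*z3*β + 2*n*z2^2*β + 2*n*z3^2*β + 2*z0*z1*β^2 - 12*z0*z2*β^2 - 2*z0*z3*β^2 - 5*z0^2*β^2 - 2*z1*z2*β^2 - 12*z1*z3*β^2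 - 5*z1^2*β^2 + 2*z2*z3*β^2 - 5*z2^2*β^2 - 5*z3^2*β^2 - 5*M*z0*z1 + 8*M*z0*z2 + 5*M*z0*z3 + 2*M*z0^2 + 10*M*z1*z2 + 8*M*z1*z3 + 2*M*z1^2 - 5*M*z2*z3 + 2*M*z2^2 + 2*M*z3^2 - 3*f*z0*z2 + 10*f*z1*z2 - 3*f*z1*z3 + 4*n*z0*z1 - 8*n*z0*z2 - 4*n*z0*z3 - 4*n*z0^2 - 4*n*z1*z2 - 8*n*z1*z3 - 4*n*z1^2 + 4*n*z2*z3 - 4*n*z2^2 - 4*n*z3^2 - 2*z0*z1*β - 2*z0*z2*β + 2*z0*z3*β + 4*z0^2*β - 8*z1*z2*β - 2*z1*z3*β + 4*z1^2*β - 2*z2*z3*β + 4*z2^2*β + 4*z3^2*β + 2*z0*z1 - 12*z0*z2 - 2*z0*z3 - 5*z0^2 - 2*z1*z2 - 12*z1*z3 - 5*z1^2 + 2*z2*z3 - 5*z2^2 - 5*z3^2) * hf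

end Pool.Agent.R238.HB
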