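import Pool.Agent.R238.HB.Core

namespace Pool.Agent.R238.HB

lemma quad_zero (g a b : ℝ) (hg : g^2 < 4) (h : a^2 - g*a*b + b^2 = 0) : a = 0 ∧ b = 0 := by
  have h1 : (a - g*b/2)^2 + (1 - g^2/4)*b^2 = 0 := by linear_combination h
  have h2 : 0 < 1 - g^2/4 := by linarith
  have hb : b = 0 := by
    by_contra hb
    have : 0 < b^2 := by positivity
    nlinarith [sq_nonneg (a - g*b/2), mul_pos h2 this]
  subst hb
  refine ⟨?_, rfl⟩
  have : a^2 = 0 := by linarith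
  exact pow_eq_zero_iff (two_ne_zero) |>.mp this

lemma det_pos (f p q : ℝ) (hf1 : 1 < f) (hf2 : f < 2) (h : f*p + q ≠ 0) :
    0 < p^2 + f*p*q + q^2 := by
  have e : p^2 + f*p*q + q^2 = (1-f/2)*(p^2+q^2) + (f/2)*(p+q)^2 := by ring
  rw [e]
  have h1 : 0 < 1 - f/2 := by linarith
  have h2 : 0 < p^2 + q^2 := by
    by_contra hcon
    push Not at hcon
    have hp : p = 0 := by
      have : p^2 = 0 := le_antisymm (by nlinarith [sq_nonneg q]) (sq_nonneg p)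
      exact pow_eq_zero_iff (two_ne_zero) |>.mp this
    have hq : q = 0 := by
      have : q^2 = 0 := le_antisymm (by nlinarith [sq_nonneg p]) (sq_nonneg q)
      exact pow_eq_zero_iff (two_ne_zero) |>.mp this
    apply h
    rw [hp, hq]; ring
  have h3 : 0 ≤ (f/2)*(p+q)^2 := by positivity
  have h4 := mul_pos h1 h2
  linarith

lemma final_zero (f z0 z1 z2 z3 : ℝ) (hf1 : 1 < f)
    (ha : z2+(f-1)*z1+z0 = 0) (ha' : z3+(f-1)*z2+z1 = 0)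
    (hb : z2-(f-1)*z1+z0 = 0) (hb' : z3-(f-1)*z2+z1 = 0) :
    z0 = 0 ∧ z1 = 0 ∧ z2 = 0 ∧ z3 = 0 := by
  have hz1 : z1 = 0 := by
    have : (f-1)*z1 = 0 := by linarith
    exact (mul_eq_zero.mp this).resolve_left (by linarith)
  have hz2 : z2 = 0 := by
    have : (f-1)*z2 = 0 := by linarith
    exact (mul_eq_zero.mp this).resolve_left (by linarith)
  subst hz1 hz2
  refine ⟨?_, rfl, rfl, ?_⟩
  · linarith
  · linarith

lemma mid_zero (f p q cP cQ a0 a1 b0 b1 : ℝ) (hf : f^2 - f - 1 = 0) (hf1 : 1 < f) (hf2 : f < 2)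
    (hcP : cP ≠ 0) (hcQ : cQ ≠ 0) (hu : f*p + q ≠ 0)
    (e0 : p * BB1 f a0 a1 b0 b1 + q * BB2 f a0 a1 b0 b1 = 0)
    (e1 : -q * BB1 f a0 a1 b0 b1 + (p + f*q) * BB2 f a0 a1 b0 b1 = 0)
    (e2 : cP * (a0^2-(f-1)*a0*a1+a1^2) + cQ * (b0^2+(f-1)*b0*b1+b1^2) = 0) :
    (a0 = 0 ∧ a1 = 0) ∧ (b0 = 0 ∧ b1 = 0) := by
  have hdet := det_pos f p q hf1 hf2 hu
  have hN := nn_id f a0 a1 b0 b1 hf
  generalize BB1 f a0 a1 b0 b1 = c1 at *
  generalize BB2 f a0 a1 b0 b1 = c2 at *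
  have hB1 : c1 = 0 := by
    have : (p^2 + f*p*q + q^2) * c1 = 0 := by
      linear_combination (p + f*q) * e0 - q * e1
    rcases mul_eq_zero.mp this with h | h
    · exact absurd h hdet.ne'
    · exact h
  have hB2 : c2 = 0 := by
    have : (p^2 + f*p*q + q^2) * c2 = 0 := by
      linear_combination p * e1 + q * e0
    rcases mul_eq_zero.mp this with h | h
    · exact absurd h hdet.ne'
    · exact h
  rw [hB1, hB2] at hN
  have hN' : (a0^2-(f-1)*a0*a1+a1^2)*(b0^2+(f-1)*b0*b1+b1^2) = 0 := by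
    rw [← hN]; ring
  have hboth : (a0^2-(f-1)*a0*a1+a1^2) = 0 ∧ (b0^2+(f-1)*b0*b1+b1^2) = 0 := by
    rcases mul_eq_zero.mp hN' with h | h
    · refine ⟨h, ?_⟩
      have : cQ * (b0^2+(f-1)*b0*b1+b1^2) = 0 := by
        rw [h] at e2; linarith
      exact (mul_eq_zero.mp this).resolve_left hcQ
    · refine ⟨?_, h⟩
      have : cP * (a0^2-(f-1)*a0*a1+a1^2) = 0 := by
        rw [h] at e2; linarith
      exact (mul_eq_zero.mp this).resolve_left hcP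
  have hq1 : (f-1)^2 < 4 := by nlinarith
  exact ⟨quad_zero (f-1) a0 a1 hq1 hboth.1, quad_zero (-(f-1)) b0 b1 (by nlinarith) (by linarith [hboth.2])⟩

lemma core_zero (M n β f : ℝ) (hf : f^2 - f - 1 = 0) (hf1 : 1 < f) (hf2 : f < 2)
    (hcP : cPp M n β f ≠ 0) (hcQ : cQq M n β f ≠ 0) (hu : uu M n β f ≠ 0)
    (z0 z1 z2 z3 : ℝ)
    (g0 : G M n β z0 z1 z2 z3 (-f*z2-z0) = 0)
    (g1 : G M n β z1 z2 z3 (-f*z2-z0) (-f*z3-z1) = 0)
    (g2 : G M n β z2 z3 (-f*z2-z0) (-f*z3-z1) (f*(z0+z2)) = 0)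
    (g3 : G M n β z3 (-f*z2-z0) (-f*z3-z1) (f*(z0+z2)) (f*(z1+z3)) = 0)
    (g4 : G M n β (-f*z2-z0) (-f*z3-z1) (f*(z0+z2)) (f*(z1+z3)) (-f*z0-z2) = 0)
    (g5 : G M n β (-f*z3-z1) (f*(z0+z2)) (f*(z1+z3)) (-f*z0-z2) (-f*z1-z3) = 0)
    (g6 : G M n β (f*(z0+z2)) (f*(z1+z3)) (-f*z0-z2) (-f*z1-z3) z0 = 0)
    (g7 : G M n β (f*(z1+z3)) (-f*z0-z2) (-f*z1-z3) z0 z1 = 0)
    (g8 : G M n β (-f*z0-z2) (-f*z1-z3) z0 z1 z2 = 0)
    (g9 : G M n β (-f*z1-z3) z0 z1 z2 z3 = 0) :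
    z0 = 0 ∧ z1 = 0 ∧ z2 = 0 ∧ z3 = 0 := by
  have e0 := z0_id M n β f z0 z1 z2 z3 hf
  have e1 := z1_id M n β f z0 z1 z2 z3 hf
  have e2 := s_id M n β f z0 z1 z2 z3 hf
  rw [g0, g1, g5, g6] at e0
  rw [g1, g6, g2, g7] at e1
  rw [g0, g1, g2, g3, g4, g5, g6, g7, g8, g9] at e2
  clear g0 g1 g2 g3 g4 g5 g6 g7 g8 g9
  have hu' : f * pp M n β f + (uu M n β f - f * pp M n β f) ≠ 0 := by
    intro h; apply hu; linarith
  have := mid_zero f (pp M n β f) (uu M n β f - f * pp M n β f) (cPp M n β f) (cQq M n β f)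
    _ _ _ _ hf hf1 hf2 hcP hcQ hu' (by rw [← e0]; norm_num) (by rw [← e1]; norm_num) (by rw [← e2]; norm_num)
  exact final_zero f z0 z1 z2 z3 hf1 this.1.1 this.1.2 this.2.1 this.2.2

end Pool.Agent.R238.HB
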