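import Pool.Agent.R238.HB.Four

noncomputable section

namespace Pool.Agent.R238.HB

variable {z r β n M : ℝ}

def cA (k : ℤ) : ℝ := Real.cos (2*Real.pi*k/5)
def cB (k : ℤ) : ℝ := Real.cos (3*Real.pi*k/5)

lemma cA_per (i q : ℤ) : cA (i + 10*q) = cA i := by
  unfold cA
  have : (2*Real.pi*((i + 10*q : ℤ) : ℝ)/5) = 2*Real.pi*i/5 + ((2*q : ℤ) : ℝ)*(2*Real.pi) := by
    push_cast; ring
  rw [this, Real.cos_add_int_mul_two_pi]

lemma cB_per (i q : ℤ) : cB (i + 10*q) = cB i := by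
  unfold cB
  have : (3*Real.pi*((i + 10*q : ℤ) : ℝ)/5) = 3*Real.pi*i/5 + ((3*q : ℤ) : ℝ)*(2*Real.pi) := by
    push_cast; ring
  rw [this, Real.cos_add_int_mul_two_pi]

lemma cA_neg (k : ℤ) : cA (-k) = cA k := by
  unfold cA
  rw [← Real.cos_neg]; congr 1; push_cast; ring

lemma cB_neg (k : ℤ) : cB (-k) = cB k := by
  unfold cB
  rw [← Real.cos_neg]; congr 1; push_cast; ring

lemma cA_zero : cA 0 = 1 := by simp [cA]
lemma cB_zero : cB 0 = 1 := by simp [cB]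

lemma cA_one (P : Par z r β n M) : cA 1 = (z^2-1)/2 := by
  have s5 : Real.sqrt 5 ^ 2 = 5 := Real.sq_sqrt (by norm_num)
  unfold cA
  have : (2*Real.pi*((1 : ℤ) : ℝ)/5) = 2*(Real.pi/5) := by push_cast; ring
  rw [this, Real.cos_two_mul, Real.cos_pi_div_five, P.zsq]
  linear_combination (1/8)*s5

lemma cB_one (P : Par z r β n M) : cB 1 = -(z^2-1)/2 := by
  have h := cA_one P
  unfold cA at h
  unfold cB
  have : (3*Real.pi*((1 : ℤ) : ℝ)/5) = Real.pi - (2*Real.pi*((1 : ℤ) : ℝ)/5) := by push_cast; ring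
  rw [this, Real.cos_pi_sub, h]; ring

lemma cA_rec (P : Par z r β n M) (k : ℤ) : cA (k+1) + cA (k-1) = (z^2-1)*cA k := by
  have h := cA_one P
  unfold cA at *
  have e1 : (2*Real.pi*((k+1 : ℤ) : ℝ)/5) = 2*Real.pi*k/5 + 2*Real.pi*((1 : ℤ) : ℝ)/5 := by push_cast; ring
  have e2 : (2*Real.pi*((k-1 : ℤ) : ℝ)/5) = 2*Real.pi*k/5 - 2*Real.pi*((1 : ℤ) : ℝ)/5 := by push_cast; ring
  rw [e1, e2, Real.cos_add, Real.cos_sub, h]; ring

lemma cB_rec (P : Par z r β n M) (k : ℤ) : cB (k+1) + cB (k-1) = -(z^2-1)*cB k := by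
  have h := cB_one P
  unfold cB at *
  have e1 : (3*Real.pi*((k+1 : ℤ) : ℝ)/5) = 3*Real.pi*k/5 + 3*Real.pi*((1 : ℤ) : ℝ)/5 := by push_cast; ring
  have e2 : (3*Real.pi*((k-1 : ℤ) : ℝ)/5) = 3*Real.pi*k/5 - 3*Real.pi*((1 : ℤ) : ℝ)/5 := by push_cast; ring
  rw [e1, e2, Real.cos_add, Real.cos_sub, h]; ring

/-- The value of the (normalised) constraint for the shift `k`. -/
def Tt (z r : ℝ) (k : ℤ) : ℝ :=
  w2 z r * (e2 z r * (1 - cA k) + 4*r*((cA (k-1) - cA (k+1))/2))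
    + w3 z r * (e3 z r * (1 - cB k) + 4*r*((cB (k-1) - cB (k+1))/2))

lemma Tt_per (z r : ℝ) (i q : ℤ) : Tt z r (i + 10*q) = Tt z r i := by
  unfold Tt
  rw [cA_per, cB_per, show i + 10*q - 1 = (i-1) + 10*q by ring, show i + 10*q + 1 = (i+1) + 10*q by ring,
    cA_per, cA_per, cB_per, cB_per]

lemma comb_pn (W2 T2 W3 T3 lo t : ℝ) (h2 : 0.236 < W2) (h3 : 0 < W3) (h3' : W3 < 0.687)
    (hlo : 0 ≤ lo) (ht : 0 ≤ t) (a2 : lo ≤ T2) (a3 : -t ≤ T3) (hf : 0 ≤ 0.236*lo - 0.687*t) :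
    0 ≤ W2*T2 + W3*T3 := by
  have k1 : 0.236*lo ≤ W2*T2 := mul_le_mul h2.le a2 hlo (by linarith)
  have k2 : -(0.687*t) ≤ W3*T3 := by
    have k3 : W3*(-t) ≤ W3*T3 := mul_le_mul_of_nonneg_left a3 h3.le
    have k4 : W3*t ≤ 0.687*t := mul_le_mul_of_nonneg_right h3'.le ht
    linarith
  linarith

lemma comb_np (W2 T2 W3 T3 lo t : ℝ) (h2 : 0 < W2) (h2' : W2 < 0.239) (h3 : 0.684 < W3)
    (hlo : 0 ≤ lo) (ht : 0 ≤ t) (a2 : -t ≤ T2) (a3 : lo ≤ T3) (hf : 0 ≤ 0.684*lo - 0.239*t) :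
    0 ≤ W2*T2 + W3*T3 := by
  have k1 : 0.684*lo ≤ W3*T3 := mul_le_mul h3.le a3 hlo (by linarith)
  have k2 : -(0.239*t) ≤ W2*T2 := by
    have k3 : W2*(-t) ≤ W2*T2 := mul_le_mul_of_nonneg_left a2 h2.le
    have k4 : W2*t ≤ 0.239*t := mul_le_mul_of_nonneg_right h2'.le ht
    linarith
  linarith

lemma comb_pp (W2 T2 W3 T3 : ℝ) (h2 : 0 < W2) (h3 : 0 < W3) (a2 : 0 ≤ T2) (a3 : 0 ≤ T3) :
    0 ≤ W2*T2 + W3*T3 := add_nonneg (mul_nonneg h2.le a2) (mul_nonneg h3.le a3)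

/-- numerical package -/
structure Nm (z r : ℝ) : Prop where
  a1 : 2.8683 < e2 z r
  a2 : e2 z r < 2.8688
  b1 : 2.2191 < e3 z r
  b2 : e3 z r < 2.2197
  c1 : 0.236 < w2 z r
  c2 : w2 z r < 0.239
  d1 : 0.684 < w3 z r
  d2 : w3 z r < 0.687
  f1 : 1.61803 < z^2
  f2 : z^2 < 1.618035
  r1 : 0.7374 < r
  r2 : r < 0.73743
  g1 : 1.1931 < z^2*r
  g2 : z^2*r < 1.1932
  ka1 : 2.8683*1.61803 < e2 z r * z^2
  ka2 : e2 z r * z^2 < 2.8688*1.618035
  kb1 : 2.2191*1.61803 < e3 z r * z^2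
  kb2 : e3 z r * z^2 < 2.2197*1.618035

lemma Par.nm (P : Par z r β n M) : Nm z r := by
  obtain ⟨a1, a2⟩ := P.e2b
  obtain ⟨b1, b2⟩ := P.e3b
  obtain ⟨c1, c2⟩ := P.w2b
  obtain ⟨d1, d2⟩ := P.w3b
  have f1 := P.f1; have f2 := P.f2; have r1 := P.r1; have r2 := P.r2
  obtain ⟨g1, g2⟩ := P.fr
  have m : ∀ x y a b c d : ℝ, 0 < a → 0 < c → a < x → x < b → c < y → y < d → a*c < x*y ∧ x*y < b*d := by
    intro x y a b c d ha hc h1 h2 h3 h4
    exact ⟨mul_lt_mul'' h1 h3 ha.le hc.le, mul_lt_mul'' h2 h4 (by linarith) (by linarith)⟩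
  have ka := m (e2 z r) (z^2) _ _ _ _ (by norm_num) (by norm_num) a1 a2 f1 f2
  have kb := m (e3 z r) (z^2) _ _ _ _ (by norm_num) (by norm_num) b1 b2 f1 f2
  exact ⟨a1, a2, b1, b2, c1, c2, d1, d2, f1, f2, r1, r2, g1, g2, ka.1, ka.2, kb.1, kb.2⟩

lemma case1 (N : Nm z r) :
    0 ≤ w2 z r * (e2 z r * (1 - ((z^2-1)/2)) + 4*r*(((1) - (-z^2/2))/2))
      + w3 z r * (e3 z r * (1 - (-(z^2-1)/2)) + 4*r*(((1) - (-z^2/2))/2)) := by
  obtain ⟨a1, a2, b1, b2, c1, c2, d1, d2, f1, f2, r1, r2, g1, g2, ka1, ka2, kb1, kb2⟩ := N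
  exact comb_pp _ _ _ _ (by linarith) (by linarith) (by linarith) (by linarith)

lemma case2 (N : Nm z r) :
    0 ≤ w2 z r * (e2 z r * (1 - (-z^2/2)) + 4*r*((((z^2-1)/2) - (-z^2/2))/2))
      + w3 z r * (e3 z r * (1 - (-z^2/2)) + 4*r*(((-(z^2-1)/2) - (z^2/2))/2)) := by
  obtain ⟨a1, a2, b1, b2, c1, c2, d1, d2, f1, f2, r1, r2, g1, g2, ka1, ka2, kb1, kb2⟩ := N
  exact comb_pp _ _ _ _ (by linarith) (by linarith) (by linarith) (by linarith)

lemma case3 (t3 : w2 z r * (e2 z r*(1+z^2/2) - 4*r*((2*z^2-1)/4)) + w3 z r * (e3 z r*(1-z^2/2) - 4*r*((2*z^2-1)/4)) = 0) :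
    0 ≤ w2 z r * (e2 z r * (1 - (-z^2/2)) + 4*r*(((-z^2/2) - ((z^2-1)/2))/2))
      + w3 z r * (e3 z r * (1 - (z^2/2)) + 4*r*(((-z^2/2) - ((z^2-1)/2))/2)) := by
  apply le_of_eq; rw [← t3]; ring

lemma case4 (N : Nm z r) :
    0 ≤ w2 z r * (e2 z r * (1 - ((z^2-1)/2)) + 4*r*(((-z^2/2) - (1))/2))
      + w3 z r * (e3 z r * (1 - ((z^2-1)/2)) + 4*r*(((z^2/2) - (-1))/2)) := by
  obtain ⟨a1, a2, b1, b2, c1, c2, d1, d2, f1, f2, r1, r2, g1, g2, ka1, ka2, kb1, kb2⟩ := N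
  exact comb_np _ _ _ _ 4.19 0.688 (by linarith) c2 d1 (by norm_num) (by norm_num) (by linarith) (by linarith) (by norm_num)

lemma case5 (N : Nm z r) :
    0 ≤ w2 z r * (e2 z r * (1 - (1)) + 4*r*((((z^2-1)/2) - ((z^2-1)/2))/2))
      + w3 z r * (e3 z r * (1 - (-1)) + 4*r*((((z^2-1)/2) - ((z^2-1)/2))/2)) := by
  obtain ⟨a1, a2, b1, b2, c1, c2, d1, d2, f1, f2, r1, r2, g1, g2, ka1, ka2, kb1, kb2⟩ := N
  exact comb_pp _ _ _ _ (by linarith) (by linarith) (by linarith) (by linarith)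

lemma case6 (N : Nm z r) :
    0 ≤ w2 z r * (e2 z r * (1 - ((z^2-1)/2)) + 4*r*(((1) - (-z^2/2))/2))
      + w3 z r * (e3 z r * (1 - ((z^2-1)/2)) + 4*r*(((-1) - (z^2/2))/2)) := by
  obtain ⟨a1, a2, b1, b2, c1, c2, d1, d2, f1, f2, r1, r2, g1, g2, ka1, ka2, kb1, kb2⟩ := N
  exact comb_pn _ _ _ _ 4.64 1.137 c1 (by linarith) d2 (by norm_num) (by norm_num) (by linarith) (by linarith) (by norm_num)

lemma case7 (N : Nm z r) :
    0 ≤ w2 z r * (e2 z r * (1 - (-z^2/2)) + 4*r*((((z^2-1)/2) - (-z^2/2))/2))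
      + w3 z r * (e3 z r * (1 - (z^2/2)) + 4*r*((((z^2-1)/2) - (-z^2/2))/2)) := by
  obtain ⟨a1, a2, b1, b2, c1, c2, d1, d2, f1, f2, r1, r2, g1, g2, ka1, ka2, kb1, kb2⟩ := N
  exact comb_pp _ _ _ _ (by linarith) (by linarith) (by linarith) (by linarith)

lemma case8 (N : Nm z r) :
    0 ≤ w2 z r * (e2 z r * (1 - (-z^2/2)) + 4*r*(((-z^2/2) - ((z^2-1)/2))/2))
      + w3 z r * (e3 z r * (1 - (-z^2/2)) + 4*r*(((z^2/2) - (-(z^2-1)/2))/2)) := by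
  obtain ⟨a1, a2, b1, b2, c1, c2, d1, d2, f1, f2, r1, r2, g1, g2, ka1, ka2, kb1, kb2⟩ := N
  exact comb_pp _ _ _ _ (by linarith) (by linarith) (by linarith) (by linarith)

lemma case9  :
    0 ≤ w2 z r * (e2 z r * (1 - ((z^2-1)/2)) + 4*r*(((-z^2/2) - (1))/2))
      + w3 z r * (e3 z r * (1 - (-(z^2-1)/2)) + 4*r*(((-z^2/2) - (1))/2)) := by
  apply le_of_eq; unfold w2 w3; ring

/-- table of cosines -/
structure Tab (z : ℝ) : Prop where
  A0 : cA 0 = 1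
  A1 : cA 1 = (z^2-1)/2
  A2 : cA 2 = -z^2/2
  A3 : cA 3 = -z^2/2
  A4 : cA 4 = (z^2-1)/2
  A5 : cA 5 = 1
  A6 : cA 6 = (z^2-1)/2
  A7 : cA 7 = -z^2/2
  A8 : cA 8 = -z^2/2
  A9 : cA 9 = (z^2-1)/2
  A10 : cA 10 = 1
  B0 : cB 0 = 1
  B1 : cB 1 = -(z^2-1)/2
  B2 : cB 2 = -z^2/2
  B3 : cB 3 = z^2/2
  B4 : cB 4 = (z^2-1)/2
  B5 : cB 5 = -1
  B6 : cB 6 = (z^2-1)/2
  B7 : cB 7 = z^2/2
  B8 : cB 8 = -z^2/2
  B9 : cB 9 = -(z^2-1)/2
  B10 : cB 10 = 1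

lemma Par.tab (P : Par z r β n M) : Tab z := by
  have z4 := P.z4
  have A0 : cA 0 = 1 := cA_zero
  have A1 : cA 1 = (z^2-1)/2 := cA_one P
  have A2 : cA 2 = -z^2/2 := by
    have := cA_rec P 1; norm_num at this; rw [A0, A1] at this; linear_combination this + (1/2)*z4
  have A3 : cA 3 = -z^2/2 := by
    have := cA_rec P 2; norm_num at this; rw [A1, A2] at this; linear_combination this - (1/2)*z4
  have A4 : cA 4 = (z^2-1)/2 := by
    have := cA_rec P 3; norm_num at this; rw [A2, A3] at this; linear_combination this - (1/2)*z4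
  have A5 : cA 5 = 1 := by
    have := cA_rec P 4; norm_num at this; rw [A3, A4] at this; linear_combination this + (1/2)*z4
  have A6 : cA 6 = (z^2-1)/2 := by
    have := cA_rec P 5; norm_num at this; rw [A4, A5] at this; linear_combination this
  have A7 : cA 7 = -z^2/2 := by
    have := cA_rec P 6; norm_num at this; rw [A5, A6] at this; linear_combination this + (1/2)*z4
  have A8 : cA 8 = -z^2/2 := by
    have := cA_rec P 7; norm_num at this; rw [A6, A7] at this; linear_combination this - (1/2)*z4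
  have A9 : cA 9 = (z^2-1)/2 := by
    have := cA_rec P 8; norm_num at this; rw [A7, A8] at this; linear_combination this - (1/2)*z4
  have A10 : cA 10 = 1 := by
    have := cA_rec P 9; norm_num at this; rw [A8, A9] at this; linear_combination this + (1/2)*z4
  have B0 : cB 0 = 1 := cB_zero
  have B1 : cB 1 = -(z^2-1)/2 := cB_one P
  have B2 : cB 2 = -z^2/2 := by
    have := cB_rec P 1; norm_num at this; rw [B0, B1] at this; linear_combination this + (1/2)*z4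
  have B3 : cB 3 = z^2/2 := by
    have := cB_rec P 2; norm_num at this; rw [B1, B2] at this; linear_combination this + (1/2)*z4
  have B4 : cB 4 = (z^2-1)/2 := by
    have := cB_rec P 3; norm_num at this; rw [B2, B3] at this; linear_combination this - (1/2)*z4
  have B5 : cB 5 = -1 := by
    have := cB_rec P 4; norm_num at this; rw [B3, B4] at this; linear_combination this - (1/2)*z4
  have B6 : cB 6 = (z^2-1)/2 := by
    have := cB_rec P 5; norm_num at this; rw [B4, B5] at this; linear_combination this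
  have B7 : cB 7 = z^2/2 := by
    have := cB_rec P 6; norm_num at this; rw [B5, B6] at this; linear_combination this - (1/2)*z4
  have B8 : cB 8 = -z^2/2 := by
    have := cB_rec P 7; norm_num at this; rw [B6, B7] at this; linear_combination this - (1/2)*z4
  have B9 : cB 9 = -(z^2-1)/2 := by
    have := cB_rec P 8; norm_num at this; rw [B7, B8] at this; linear_combination this + (1/2)*z4
  have B10 : cB 10 = 1 := by
    have := cB_rec P 9; norm_num at this; rw [B8, B9] at this; linear_combination this + (1/2)*z4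
  exact ⟨A0, A1, A2, A3, A4, A5, A6, A7, A8, A9, A10, B0, B1, B2, B3, B4, B5, B6, B7, B8, B9, B10⟩

lemma Par.Tt_nonneg (P : Par z r β n M) (k : ℤ) : 0 ≤ Tt z r k := by
  have hk : k = k % 10 + 10 * (k / 10) := by rw [Int.emod_add_mul_ediv]
  rw [hk, Tt_per]
  have i0 : 0 ≤ k % 10 := Int.emod_nonneg k (by norm_num)
  have i1 : k % 10 < 10 := Int.emod_lt_of_pos k (by norm_num)
  generalize k % 10 = i at *
  have N := P.nm
  have T := P.tab
  have t3 := P.tight3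
  clear P hk
  unfold Tt
  interval_cases i
  · rw [show (0:ℤ)-1 = -1 by norm_num, show (0:ℤ)+1 = 1 by norm_num, cA_neg, cB_neg, T.A0, T.B0]
    apply le_of_eq; ring
  · rw [show (1:ℤ)-1 = 0 by norm_num, show (1:ℤ)+1 = 2 by norm_num, T.A0, T.A1, T.A2, T.B0, T.B1, T.B2]
    exact case1 N
  · rw [show (2:ℤ)-1 = 1 by norm_num, show (2:ℤ)+1 = 3 by norm_num, T.A1, T.A2, T.A3, T.B1, T.B2, T.B3]
    exact case2 N
  · rw [show (3:ℤ)-1 = 2 by norm_num, show (3:ℤ)+1 = 4 by norm_num, T.A2, T.A3, T.A4, T.B2, T.B3, T.B4]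
    exact case3 t3
  · rw [show (4:ℤ)-1 = 3 by norm_num, show (4:ℤ)+1 = 5 by norm_num, T.A3, T.A4, T.A5, T.B3, T.B4, T.B5]
    exact case4 N
  · rw [show (5:ℤ)-1 = 4 by norm_num, show (5:ℤ)+1 = 6 by norm_num, T.A4, T.A5, T.A6, T.B4, T.B5, T.B6]
    exact case5 N
  · rw [show (6:ℤ)-1 = 5 by norm_num, show (6:ℤ)+1 = 7 by norm_num, T.A5, T.A6, T.A7, T.B5, T.B6, T.B7]
    exact case6 N
  · rw [show (7:ℤ)-1 = 6 by norm_num, show (7:ℤ)+1 = 8 by norm_num, T.A6, T.A7, T.A8, T.B6, T.B7, T.B8]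
    exact case7 N
  · rw [show (8:ℤ)-1 = 7 by norm_num, show (8:ℤ)+1 = 9 by norm_num, T.A7, T.A8, T.A9, T.B7, T.B8, T.B9]
    exact case8 N
  · rw [show (9:ℤ)-1 = 8 by norm_num, show (9:ℤ)+1 = 10 by norm_num, T.A8, T.A9, T.A10, T.B8, T.B9, T.B10]
    exact case9

end Pool.Agent.R238.HB
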