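import Mathlib

/-! MP_5a160e_an: heavy-ball cycles.  Definitions shared by all pieces. -/

namespace Pool.Agent.R238.HB

/-- `ℝ^d` with its euclidean norm. -/
abbrev E (d : ℕ) := EuclideanSpace ℝ (Fin d)

/-- The class `𝓕_{μ,L}(ℝ^d)`: differentiable, `μ`-strongly convex, gradient `L`-Lipschitz. -/
def InClass (μ L : ℝ) (d : ℕ) (f : E d → ℝ) : Prop :=
  Differentiable ℝ f ∧ StrongConvexOn Set.univ μ f ∧
    ∀ x y : E d, ‖gradient f x - gradient f y‖ ≤ L * ‖x - y‖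

/-- The iterates of the heavy-ball method `HB_{γ,β}` on `f` started at `x0, x1`. -/
noncomputable def hb {d : ℕ} (f : E d → ℝ) (γ β : ℝ) (x0 x1 : E d) : ℕ → E d
  | 0 => x0
  | 1 => x1
  | (t + 2) => hb f γ β x0 x1 (t + 1) - γ • gradient f (hb f γ β x0 x1 (t + 1))
      + β • (hb f γ β x0 x1 (t + 1) - hb f γ β x0 x1 t)

/-- The `K`-tuple `x` (indexed by `ℤ/K`) is a cycle of `HB_{γ,β}` on `𝓕_{μ,L}(ℝ^d)`. -/
def IsCycle (μ L γ β : ℝ) {d K : ℕ} (x : ZMod K → E d) : Prop :=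
  (∃ i j, x i ≠ x j) ∧
    ∃ f : E d → ℝ, InClass μ L d f ∧ ∀ t : ℕ, hb f γ β (x 0) (x 1) t = x (t : ZMod K)

/-- `𝒞_d`: the tunings `(γ,β)` with a cycle of some length `K ≥ 3` in dimension `d`. -/
def cycDim (μ L : ℝ) (d : ℕ) : Set (ℝ × ℝ) :=
  {p | ∃ K : ℕ, 3 ≤ K ∧ ∃ x : ZMod K → E d, IsCycle μ L p.1 p.2 x}

/-- The cycling region `𝒞 = ⋃_{d ≥ 1} 𝒞_d`. -/
def cyc (μ L : ℝ) : Set (ℝ × ℝ) := {p | ∃ d : ℕ, 1 ≤ d ∧ p ∈ cycDim μ L d}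

end Pool.Agent.R238.HB
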