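import Pool.Agent.R238.HB.Num

noncomputable section

namespace Pool.Agent.R238.HB

variable {z r β n M : ℝ}

def e2 (z r : ℝ) : ℝ := 2*z^2 - 2 + 2*z - 2*(z^2*r) + 2*r
def e3 (z r : ℝ) : ℝ := -2*z^2 + 2 + 2*z + 2*(z^2*r) - 2*r
def w2 (z r : ℝ) : ℝ := e3 z r*(1+(z^2-1)/2) - 4*r*((2+z^2)/4)
def w3 (z r : ℝ) : ℝ := 4*r*((2+z^2)/4) - e2 z r*(1-(z^2-1)/2)

lemma Par.e2b (P : Par z r β n M) : 2.8683 < e2 z r ∧ e2 z r < 2.8688 := by
  have := P.fr; have := P.f1; have := P.f2; have := P.r1; have := P.r2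
  have := P.z1; have := P.z2
  unfold e2
  constructor <;> linarith
lemma Par.e3b (P : Par z r β n M) : 2.2191 < e3 z r ∧ e3 z r < 2.2197 := by
  have := P.fr; have := P.f1; have := P.f2; have := P.r1; have := P.r2
  have := P.z1; have := P.z2
  unfold e3
  constructor <;> linarith

lemma Par.w2b (P : Par z r β n M) : 0.236 < w2 z r ∧ w2 z r < 0.239 := by
  obtain ⟨h1, h2⟩ := P.fr; have f1 := P.f1; have f2 := P.f2; have r1 := P.r1; have r2 := P.r2
  obtain ⟨a1, a2⟩ := P.e3b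
  unfold w2
  have e : e3 z r*(1+(z^2-1)/2) - 4*r*((2+z^2)/4) = e3 z r / 2 + e3 z r*z^2/2 - 2*r - z^2*r := by ring
  rw [e]
  have k1 : 2.2191*1.61803 < e3 z r * z^2 := by nlinarith
  have k2 : e3 z r * z^2 < 2.2197*1.618035 := by nlinarith
  constructor <;> linarith

lemma Par.w3b (P : Par z r β n M) : 0.684 < w3 z r ∧ w3 z r < 0.687 := by
  obtain ⟨h1, h2⟩ := P.fr; have f1 := P.f1; have f2 := P.f2; have r1 := P.r1; have r2 := P.r2
  obtain ⟨a1, a2⟩ := P.e2b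
  unfold w3
  have e : 4*r*((2+z^2)/4) - e2 z r*(1-(z^2-1)/2) = 2*r + z^2*r - 3/2*e2 z r + e2 z r*z^2/2 := by ring
  rw [e]
  have k1 : 2.8683*1.61803 < e2 z r * z^2 := by nlinarith
  have k2 : e2 z r * z^2 < 2.8688*1.618035 := by nlinarith
  constructor <;> linarith

/-- the tight constraint `s = 3` -/
lemma Par.tight3 (P : Par z r β n M) :
    w2 z r * (e2 z r*(1+z^2/2) - 4*r*((2*z^2-1)/4)) + w3 z r * (e3 z r*(1-z^2/2) - 4*r*((2*z^2-1)/4)) = 0 := by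
  have hq : 0 < z^2+2*z+2 := by have := P.z1; positivity
  have hr : r = (26 - 2*z - 14*z^2 + 10*z^3)/29 := by
    have h : (r - (26 - 2*z - 14*z^2 + 10*z^3)/29)*(z^2+2*z+2) = 0 := by
      linear_combination P.hr + (-(10*z + 6)/29)*P.z4
    have := (mul_eq_zero.mp h).resolve_right hq.ne'
    linarith
  unfold w2 w3 e2 e3
  rw [hr]
  linear_combination (- (800/841)*z^8 + (2240/841)*z^7 - (448/841)*z^6 - (2208/841)*z^5 - (1196/841)*z^4 + (1148/841)*z^3 + (1444/841)*z^2 + (908/841)*z - (972/841)) * P.z4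

end Pool.Agent.R238.HB
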