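import Pool.Agent.R238.HB.Stm

/-! HB-P2: the function `m/2 |x|^2 + n/2 dist(x, conv S)^2`. -/

namespace Pool.Agent.R238.HB

namespace P2

open Topology Filter

/-- a function with two-sided quadratic bounds has a gradient -/
theorem hasGradientAt_of_bound {d : ℕ} {h : E d → ℝ} {x g : E d}
    (hb : ∀ y, |h y - h x - inner ℝ g (y - x)| ≤ ‖y - x‖ ^ 2 / 2) : HasGradientAt h g x := by
  rw [hasGradientAt_iff_isLittleO, Asymptotics.isLittleO_iff]
  intro c hc
  have h1 : ∀ᶠ y in 𝓝 x, dist y x < 2 * c := Metric.ball_mem_nhds x (by linarith)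
  filter_upwards [h1] with y hy
  rw [dist_eq_norm] at hy
  rw [Real.norm_eq_abs]
  refine (hb y).trans ?_
  nlinarith [norm_nonneg (y - x)]

/-- convexity from the subgradient inequality -/
theorem convex_of_subgrad {d : ℕ} {h : E d → ℝ} {g : E d → E d}
    (hs : ∀ x y, h x + inner ℝ (g x) (y - x) ≤ h y) : ConvexOn ℝ Set.univ h := by
  refine ⟨convex_univ, fun x _ y _ a b ha hb hab => ?_⟩
  obtain ⟨z, hz⟩ : ∃ z, z = a • x + b • y := ⟨_, rfl⟩
  rw [← hz, smul_eq_mul, smul_eq_mul]
  have h1 := mul_le_mul_of_nonneg_left (hs z x) ha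
  have h2 := mul_le_mul_of_nonneg_left (hs z y) hb
  have h3 : a * inner ℝ (g z) (x - z) + b * inner ℝ (g z) (y - z) = 0 := by
    rw [← real_inner_smul_right, ← real_inner_smul_right, ← inner_add_right]
    have h4 : a • (x - z) + b • (y - z) = 0 := by
      rw [smul_sub, smul_sub]
      have h5 : a • x - a • z + (b • y - b • z) = (a • x + b • y) - (a + b) • z := by
        rw [add_smul]
        abel
      rw [h5, ← hz, hab, one_smul, sub_self]
    rw [h4, inner_zero_right]
  have h4 : a * h z + b * h z = h z := by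
    rw [← add_mul, hab, one_mul]
  linarith

theorem exists_q {d : ℕ} {S : Set (E d)} (hS : S.Finite) (hne : S.Nonempty) (x : E d) :
    ∃ q ∈ convexHull ℝ S, ∀ w ∈ convexHull ℝ S, inner ℝ (x - q) (w - q) ≤ 0 := by
  have h1 : IsCompact (convexHull ℝ S) := hS.isCompact_convexHull ℝ
  have h2 : Convex ℝ (convexHull ℝ S) := convex_convexHull ℝ S
  obtain ⟨q, hq, h3⟩ := exists_norm_eq_iInf_of_complete_convex hne.convexHull
    h1.isClosed.isComplete h2 x
  exact ⟨q, hq, (norm_eq_iInf_iff_real_inner_le_zero h2 hq).1 h3⟩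

end P2

theorem p2 : St_P2 := by
  intro d S hS hne m n hm hn
  choose q hq hq' using fun x : E d => P2.exists_q hS hne x
  obtain ⟨r, hr⟩ : ∃ r : E d → E d, ∀ x, r x = x - q x := ⟨_, fun _ => rfl⟩
  obtain ⟨h, hh⟩ : ∃ h : E d → ℝ, ∀ x, h x = ‖r x‖ ^ 2 / 2 := ⟨_, fun _ => rfl⟩
  have hqx : ∀ x, q x = x - r x := fun x => by rw [hr]; abel
  -- (A)
  have hA : ∀ x y, ‖r y - r x‖ ^ 2 / 2 ≤ h y - h x - inner ℝ (r x) (y - x) := by
    intro x y
    have h1 := hq' x (q y) (hq y)
    rw [← hr x] at h1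
    have h2 : q y - q x = (y - x) - (r y - r x) := by
      rw [hqx, hqx]
      abel
    rw [h2, inner_sub_right, inner_sub_right (r x) (r y)] at h1
    have h3 : ‖r y - r x‖ ^ 2 = ‖r y‖ ^ 2 - 2 * inner ℝ (r x) (r y) + ‖r x‖ ^ 2 := by
      rw [norm_sub_sq_real, real_inner_comm]
    rw [hh, hh, h3]
    have h4 : inner ℝ (r x) (r x) = ‖r x‖ ^ 2 := real_inner_self_eq_norm_sq _
    rw [h4] at h1
    linarith
  -- (B)
  have hB : ∀ x y, h y - h x - inner ℝ (r x) (y - x) ≤ ‖y - x‖ ^ 2 / 2 := by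
    intro x y
    have h1 := hq' y (q x) (hq x)
    rw [← hr y] at h1
    have h2 : q x - q y = (r y) - (y - x) - (r x) := by
      rw [hqx, hqx]
      abel
    rw [h2, inner_sub_right, inner_sub_right (r y) (r y)] at h1
    have h4 : inner ℝ (r y) (r y) = ‖r y‖ ^ 2 := real_inner_self_eq_norm_sq _
    rw [h4] at h1
    -- |(y - x) + r x|^2 - expansions
    have h5 : 0 ≤ ‖(y - x) + r x - r y‖ ^ 2 := sq_nonneg _
    have h6 : ‖(y - x) + r x - r y‖ ^ 2 = ‖y - x‖ ^ 2 + 2 * inner ℝ (r x) (y - x) + ‖r x‖ ^ 2 -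
        2 * (inner ℝ (r y) (y - x) + inner ℝ (r y) (r x)) + ‖r y‖ ^ 2 := by
      rw [norm_sub_sq_real, norm_add_sq_real, inner_add_left, real_inner_comm (r x) (y - x),
        real_inner_comm (r y) (y - x), real_inner_comm (r y) (r x)]
    rw [h6] at h5
    rw [hh, hh]
    linarith
  have hconv : ConvexOn ℝ Set.univ h := P2.convex_of_subgrad (g := r) fun x y => by
    have h1 := hA x y
    have h2 : 0 ≤ ‖r y - r x‖ ^ 2 / 2 := by positivity
    linarith
  have hgrad : ∀ x, HasGradientAt h (r x) x := fun x => P2.hasGradientAt_of_bound fun y => by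
    have h1 := hA x y
    have h2 : 0 ≤ ‖r y - r x‖ ^ 2 / 2 := by positivity
    rw [abs_le]
    refine ⟨?_, hB x y⟩
    have h3 : 0 ≤ ‖y - x‖ ^ 2 / 2 := by positivity
    linarith
  have hlip : ∀ x y, ‖r x - r y‖ ≤ ‖x - y‖ := by
    intro x y
    have h1 := hA x y
    have h2 := hA y x
    have h3 : ‖r y - r x‖ = ‖r x - r y‖ := norm_sub_rev _ _
    rw [h3] at h1
    have h4 : inner ℝ (r x) (y - x) = - inner ℝ (r x) (x - y) := by
      rw [← inner_neg_right, neg_sub]
    have h5 : ‖r x - r y‖ ^ 2 ≤ inner ℝ (r x - r y) (x - y) := by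
      rw [inner_sub_left]
      rw [h4] at h1
      linarith
    have h6 := h5.trans (real_inner_le_norm _ _)
    rcases (norm_nonneg (r x - r y)).eq_or_lt with h7 | h7
    · rw [← h7]
      exact norm_nonneg _
    · rw [sq] at h6
      exact le_of_mul_le_mul_left h6 h7
  have hfg : ∀ x : E d, HasGradientAt (fun x => m / 2 * ‖x‖ ^ 2 + n * h x)
      (m • x + n • r x) x := by
    intro x
    have h1 := (hgrad x).hasFDerivAt.const_mul n
    have h2 : HasFDerivAt (fun x : E d => m / 2 * ‖x‖ ^ 2)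
        ((m / 2) • ((2 : ℕ) • innerSL ℝ x)) x :=
      ((hasStrictFDerivAt_norm_sq x).hasFDerivAt).const_mul (m / 2)
    rw [hasGradientAt_iff_hasFDerivAt]
    refine (h2.add h1).congr_fderiv ?_
    ext v
    simp only [add_apply, smul_apply, innerSL_apply_apply,
      InnerProductSpace.toDual_apply_apply, smul_eq_mul, nsmul_eq_mul, Nat.cast_ofNat]
    rw [inner_add_left, real_inner_smul_left, real_inner_smul_left]
    ring
  refine ⟨fun x => m / 2 * ‖x‖ ^ 2 + n * h x, ⟨fun x => (hfg x).differentiableAt, ?_,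
    fun x y => ?_⟩, fun x y hy hw => ?_⟩
  · rw [strongConvexOn_iff_convex]
    have h1 : (fun x : E d => m / 2 * ‖x‖ ^ 2 + n * h x - m / 2 * ‖x‖ ^ 2) =
        fun x => n • h x := by
      funext x
      rw [smul_eq_mul]
      ring
    rw [h1]
    exact hconv.smul hn.le
  · rw [(hfg x).gradient, (hfg y).gradient]
    have h1 : m • x + n • r x - (m • y + n • r y) = m • (x - y) + n • (r x - r y) := by
      rw [smul_sub, smul_sub]
      abel
    rw [h1]
    refine (norm_add_le _ _).trans ?_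
    rw [norm_smul, norm_smul, Real.norm_of_nonneg hm.le, Real.norm_of_nonneg hn.le, add_mul]
    have := mul_le_mul_of_nonneg_left (hlip x y) hn.le
    linarith
  · rw [(hfg x).gradient]
    have hcv : ∀ w ∈ convexHull ℝ S, inner ℝ (x - y) (w - y) ≤ 0 := by
      have h1 : Convex ℝ {w : E d | inner ℝ (x - y) (w - y) ≤ 0} := by
        intro w1 hw1 w2 hw2 a b ha hb hab
        rw [Set.mem_ofPred_eq] at hw1 hw2 ⊢
        have h2 : a • w1 + b • w2 - y = a • (w1 - y) + b • (w2 - y) := by
          rw [smul_sub, smul_sub]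
          have h3 : y = a • y + b • y := by rw [← add_smul, hab, one_smul]
          conv_lhs => rw [h3]
          abel
        rw [h2, inner_add_right, real_inner_smul_right, real_inner_smul_right]
        have h3 := mul_le_mul_of_nonneg_left hw1 ha
        have h4 := mul_le_mul_of_nonneg_left hw2 hb
        linarith
      exact fun w hw' => convexHull_min (fun w hw'' => hw w hw'') h1 hw'
    have h1 := hcv (q x) (hq x)
    have h2 := hq' x y (subset_convexHull ℝ S hy)
    have h3 : ‖q x - y‖ ^ 2 ≤ 0 := by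
      rw [← real_inner_self_eq_norm_sq]
      have h4 : inner ℝ (q x - y) (q x - y) =
          inner ℝ (x - y) (q x - y) + inner ℝ (x - q x) (y - q x) := by
        have h5 : q x - y = (x - y) - (x - q x) := by abel
        have h6 : y - q x = -(q x - y) := by abel
        rw [h6, inner_neg_right]
        conv_lhs => rw [h5, inner_sub_left]
        rw [← h5]
        ring
      linarith
    have h4 : q x = y := by
      rw [← sub_eq_zero, ← norm_eq_zero]
      exact pow_eq_zero_iff (two_ne_zero) |>.1 (le_antisymm h3 (sq_nonneg _))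
    rw [hr, h4]

end Pool.Agent.R238.HB
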