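import Pool.Agent.R238.HB.Cos
import Pool.Agent.R238.HB.P2

noncomputable section

namespace Pool.Agent.R238.HB

variable {z r β n M : ℝ}

def XX (z r : ℝ) (t : ℤ) : E 4 :=
  !₂[Real.sqrt (w2 z r) * Real.cos (2*Real.pi*t/5), Real.sqrt (w2 z r) * Real.sin (2*Real.pi*t/5),
    Real.sqrt (w3 z r) * Real.cos (3*Real.pi*t/5), Real.sqrt (w3 z r) * Real.sin (3*Real.pi*t/5)]

def rho (z r : ℝ) (k : ℤ) : ℝ := w2 z r * cA k + w3 z r * cB k

lemma XX_inner (P : Par z r β n M) (s t : ℤ) : inner ℝ (XX z r s) (XX z r t) = rho z r (t - s) := by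
  have h2 : Real.sqrt (w2 z r) ^ 2 = w2 z r := Real.sq_sqrt (by linarith [P.w2b.1])
  have h3 : Real.sqrt (w3 z r) ^ 2 = w3 z r := Real.sq_sqrt (by linarith [P.w3b.1])
  have e1 : cA (t - s) = Real.cos (2*Real.pi*t/5) * Real.cos (2*Real.pi*s/5)
      + Real.sin (2*Real.pi*t/5) * Real.sin (2*Real.pi*s/5) := by
    unfold cA
    rw [← Real.cos_sub]; congr 1; push_cast; ring
  have e2 : cB (t - s) = Real.cos (3*Real.pi*t/5) * Real.cos (3*Real.pi*s/5)
      + Real.sin (3*Real.pi*t/5) * Real.sin (3*Real.pi*s/5) := by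
    unfold cB
    rw [← Real.cos_sub]; congr 1; push_cast; ring
  unfold rho
  rw [e1, e2]
  simp [XX, PiLp.inner_apply, Fin.sum_univ_four]
  rw [← h2, ← h3]
  simp only [Real.sqrt_sq_eq_abs, Real.sqrt_nonneg, abs_of_nonneg]
  ring

lemma XX_per (z r : ℝ) (t q : ℤ) : XX z r (t + 10*q) = XX z r t := by
  unfold XX
  have a1 : (2*Real.pi*((t + 10*q : ℤ) : ℝ)/5) = 2*Real.pi*t/5 + ((2*q : ℤ) : ℝ)*(2*Real.pi) := by
    push_cast; ring
  have a2 : (3*Real.pi*((t + 10*q : ℤ) : ℝ)/5) = 3*Real.pi*t/5 + ((3*q : ℤ) : ℝ)*(2*Real.pi) := by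
    push_cast; ring
  rw [a1, a2, Real.cos_add_int_mul_two_pi, Real.sin_add_int_mul_two_pi,
    Real.cos_add_int_mul_two_pi, Real.sin_add_int_mul_two_pi]

/-- `n` times the vector `p_t`. -/
def PV (z r β M : ℝ) (t : ℤ) : E 4 := M • XX z r t - β • XX z r (t-1) - XX z r (t+1)

def YY (z r β n M : ℝ) (t : ℤ) : E 4 := XX z r t - (1/n) • PV z r β M t

def DD (z r β n M : ℝ) (k : ℤ) : ℝ :=
  M*(n-M)*rho z r k + M*β*rho z r (k-1) + M*rho z r (k+1) - β*(n-M)*rho z r (k+1) - β^2*rho z r k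
    - β*rho z r (k+2) - (n-M)*rho z r (k-1) - β*rho z r (k-2) - rho z r k

lemma PV_inner (P : Par z r β n M) (t j : ℤ) :
    inner ℝ (PV z r β M t) (n • XX z r j - PV z r β M j) = DD z r β n M (j - t) := by
  unfold PV
  simp only [inner_sub_left, inner_sub_right, real_inner_smul_left, real_inner_smul_right, XX_inner P]
  rw [show j - 1 - t = j - t - 1 by ring, show j + 1 - t = j - t + 1 by ring,
    show j - (t - 1) = j - t + 1 by ring, show j - 1 - (t - 1) = j - t by ring,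
    show j + 1 - (t - 1) = j - t + 2 by ring, show j - (t + 1) = j - t - 1 by ring,
    show j - 1 - (t + 1) = j - t - 2 by ring, show j + 1 - (t + 1) = j - t by ring]
  unfold DD
  ring

lemma DD_eq (P : Par z r β n M) (k : ℤ) :
    DD z r β n M k = β*(w2 z r*(e2 z r*cA k - 4*r*((cA (k-1) - cA (k+1))/2))
      + w3 z r*(e3 z r*cB k - 4*r*((cB (k-1) - cB (k+1))/2))) := by
  have a0 := cA_rec P k
  have a1 := cA_rec P (k+1)
  have a2 := cA_rec P (k-1)
  rw [show k + 1 + 1 = k + 2 by ring, show k + 1 - 1 = k by ring] at a1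
  rw [show k - 1 + 1 = k by ring, show k - 1 - 1 = k - 2 by ring] at a2
  have b0 := cB_rec P k
  have b1 := cB_rec P (k+1)
  have b2 := cB_rec P (k-1)
  rw [show k + 1 + 1 = k + 2 by ring, show k + 1 - 1 = k by ring] at b1
  rw [show k - 1 + 1 = k by ring, show k - 1 - 1 = k - 2 by ring] at b2
  have h0 := P.h0
  have h1 := P.h1
  have ha := P.ha
  have z4 := P.z4
  unfold DD rho
  generalize cA k = A0 at *
  generalize cA (k+1) = A1 at *
  generalize cA (k-1) = Am at *
  generalize cA (k+2) = A2 at *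
  generalize cA (k-2) = Am2 at *
  generalize cB k = B0 at *
  generalize cB (k+1) = B1 at *
  generalize cB (k-1) = Bm at *
  generalize cB (k+2) = B2 at *
  generalize cB (k-2) = Bm2 at *
  generalize w2 z r = W2
  generalize w3 z r = W3
  unfold e2 e3
  linear_combination W2*(-β*a1 - β*a2 + (((1+β)*(2*M-n) - 2*β*(z^2-1))/2)*a0 + A0*h0
      + (z^2-1)/2*A0*h1 + (-(z^2-1)/2*A0 - (Am-A1)/2)*ha - β*A0*z4)
    + W3*(-β*b1 - β*b2 + (((1+β)*(2*M-n) + 2*β*(z^2-1))/2)*b0 + B0*h0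
      - (z^2-1)/2*B0*h1 + ((z^2-1)/2*B0 - (Bm-B1)/2)*ha - β*B0*z4)

lemma DD_le (P : Par z r β n M) (k : ℤ) : DD z r β n M k ≤ DD z r β n M 0 := by
  have hT := P.Tt_nonneg k
  have hβ : 0 < β := by linarith [P.b1]
  have e : DD z r β n M 0 - DD z r β n M k = β * Tt z r k := by
    rw [DD_eq P, DD_eq P, show (0:ℤ)-1 = -1 by norm_num, show (0:ℤ)+1 = 1 by norm_num, cA_neg, cB_neg,
      cA_zero, cB_zero]
    unfold Tt
    ring
  have : 0 ≤ β * Tt z r k := mul_nonneg hβ.le hT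
  linarith

lemma YY_ineq (P : Par z r β n M) (t j : ℤ) :
    inner ℝ (XX z r t - YY z r β n M t) (YY z r β n M j - YY z r β n M t) ≤ 0 := by
  have hn : 0 < n := by linarith [P.n1]
  have e1 : XX z r t - YY z r β n M t = (1/n) • PV z r β M t := by unfold YY; abel
  have e2 : ∀ i, YY z r β n M i = (1/n) • (n • XX z r i - PV z r β M i) := by
    intro i
    unfold YY
    rw [smul_sub, smul_smul, one_div_mul_cancel hn.ne', one_smul]
  rw [e1, e2 j, e2 t, ← smul_sub, real_inner_smul_left, real_inner_smul_right, inner_sub_right,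
    PV_inner P, PV_inner P]
  have h := DD_le P (j - t)
  rw [sub_self]
  have h1 : DD z r β n M (j-t) - DD z r β n M 0 ≤ 0 := by linarith
  have h2 : 0 < 1/n := by positivity
  have := mul_nonpos_of_nonneg_of_nonpos h2.le h1
  exact mul_nonpos_of_nonneg_of_nonpos h2.le this

lemma YY_per (t q : ℤ) : YY z r β n M (t + 10*q) = YY z r β n M t := by
  unfold YY PV
  rw [XX_per, show t + 10*q - 1 = (t-1) + 10*q by ring, show t + 10*q + 1 = (t+1) + 10*q by ring,
    XX_per, XX_per]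

theorem four (P : Par z r β n M) :
    ∃ x : ZMod 10 → E 4, IsCycle (1+β-M) (1+β-M+n) 1 β x := by
  have hn : 0 < n := by linarith [P.n1]
  have hm : 0 < 1 + β - M := by linarith [P.hm]
  set S : Set (E 4) := Set.range (fun i : Fin 10 => YY z r β n M (i : ℤ)) with hS
  have hmem : ∀ t : ℤ, YY z r β n M t ∈ S := by
    intro t
    have hk : t = t % 10 + 10 * (t / 10) := by rw [Int.emod_add_mul_ediv]
    have i0 : 0 ≤ t % 10 := Int.emod_nonneg t (by norm_num)
    have i1 : t % 10 < 10 := Int.emod_lt_of_pos t (by norm_num)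
    refine ⟨⟨(t % 10).toNat, by omega⟩, ?_⟩
    have : (((t % 10).toNat : ℕ) : ℤ) = t % 10 := Int.toNat_of_nonneg i0
    simp only [this]
    conv_rhs => rw [hk]
    rw [YY_per]
  obtain ⟨f, hf, hgrad⟩ := p2 4 S (Set.finite_range _) ⟨_, hmem 0⟩ (1+β-M) n hm hn
  have hg : ∀ t : ℤ, gradient f (XX z r t) = (1+β-M) • XX z r t + PV z r β M t := by
    intro t
    rw [hgrad (XX z r t) (YY z r β n M t) (hmem t)]
    · congr 1
      unfold YY
      rw [sub_sub_cancel, smul_smul, mul_one_div_cancel hn.ne', one_smul]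
    · rintro w ⟨i, rfl⟩
      exact YY_ineq P t i
  have hstep : ∀ t : ℤ, XX z r (t+1) = XX z r t - (1:ℝ) • gradient f (XX z r t)
      + β • (XX z r t - XX z r (t-1)) := by
    intro t
    rw [hg t]
    unfold PV
    module
  have hhb : ∀ t : ℕ, hb f 1 β (XX z r 0) (XX z r 1) t = XX z r (t : ℤ) := by
    intro t
    induction t using Nat.twoStepInduction with
    | zero => simp [hb]
    | one => simp [hb]
    | more k ih1 ih2 =>
      rw [hb, ih2, ih1]
      have := hstep ((k : ℤ) + 1)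
      rw [show (k : ℤ) + 1 - 1 = k by ring] at this
      push_cast
      rw [show (k : ℤ) + 2 = k + 1 + 1 by ring, this]
  have hval : ∀ t : ℕ, XX z r (((t : ZMod 10).val : ℕ) : ℤ) = XX z r (t : ℤ) := by
    intro t
    rw [ZMod.val_natCast]
    have hk : (t : ℤ) = ((t % 10 : ℕ) : ℤ) + 10 * ((t / 10 : ℕ) : ℤ) := by
      have := Nat.mod_add_div t 10
      exact_mod_cast this.symm
    conv_rhs => rw [hk]
    rw [XX_per]
  refine ⟨fun i => XX z r ((i.val : ℕ) : ℤ), ⟨0, 1, ?_⟩, f, hf, ?_⟩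
  · -- distinct points
    have v0 : ((0 : ZMod 10).val : ℤ) = 0 := by simp
    have v1 : ((1 : ZMod 10).val : ℤ) = 1 := by decide
    simp only [v0, v1]
    intro h
    have h1 : inner ℝ (XX z r 0) (XX z r 1) = inner ℝ (XX z r 0) (XX z r 0) := by rw [← h]
    rw [XX_inner P, XX_inner P] at h1
    norm_num at h1
    unfold rho at h1
    rw [cA_zero, cB_zero, cA_one P, cB_one P] at h1
    have := P.w2b.1; have := P.w3b.1; have := P.f1; have := P.f2
    nlinarith
  · intro t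
    have v0 : ((0 : ZMod 10).val : ℤ) = 0 := by simp
    have v1 : ((1 : ZMod 10).val : ℤ) = 1 := by decide
    simp only [v0, v1]
    rw [hhb t, hval t]

end Pool.Agent.R238.HB
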