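import Pool.Agent.R238.HB.Par

noncomputable section

namespace Pool.Agent.R238.HB

variable {z r β n M : ℝ}

lemma Par.h1 (P : Par z r β n M) : (1+β)*(2*M-n) - (4*β - n*(1-β)) = 0 := by
  linear_combination 2 * P.hb

lemma Par.h0 (P : Par z r β n M) : M*(n-M) - (1-β)^2 - β*(2+2*z-z^2) = 0 := by
  linear_combination P.hc

lemma Par.hr' (P : Par z r β n M) : n*(1-β)*(z^2+2*z+2) - 8*β*(1+z) = 0 := by
  linear_combination (z^2+2*z+2) * P.ha + 4*β*P.hr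

lemma Par.fr (P : Par z r β n M) : 1.1931 < z^2*r ∧ z^2*r < 1.1932 := by
  have := P.f1; have := P.f2; have := P.r1; have := P.r2
  constructor <;> nlinarith

lemma Par.cP_pos (P : Par z r β n M) : 0 < cPp M n β (z^2) := by
  have e : cPp M n β (z^2) = β*((7/2*z^2+9/2)*(2+2*z-z^2)+10*z^2-15/2 - 4*(6*z^2+2)*r) := by
    unfold cPp
    linear_combination (7/2*z^2+9/2)*P.h0 + (9/2*z^2-1)*P.hb - (6*z^2+2)*P.ha
  have hβ : 0 < β := by linarith [P.b1]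
  rw [e]
  apply mul_pos hβ
  have := P.fr; have := P.f1; have := P.f2; have := P.r1; have := P.r2
  have := P.z1; have := P.z2; have := P.c1; have := P.c2; have h4 := P.z4
  have e2 : (7/2*z^2+9/2)*(2+2*z-z^2)+10*z^2-15/2 - 4*(6*z^2+2)*r
    = 7*z^3 - 7/2*z^4 + 7*z^2 - 9/2*z^2 + 9*z + 9 + 10*z^2 - 15/2 - 24*(z^2*r) - 8*r := by ring
  rw [e2, h4]
  linarith [this]

lemma Par.cQ_neg (P : Par z r β n M) : cQq M n β (z^2) < 0 := by
  have e : cQq M n β (z^2) = -(β*(-((13/2-1/2*z^2)*(2+2*z-z^2)+1/2-6*z^2) + 4*(6-2*z^2)*r)) := by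
    unfold cQq
    linear_combination (13/2-1/2*z^2)*P.h0 + (7-13/2*z^2)*P.hb - (6-2*z^2)*P.ha
  have hβ : 0 < β := by linarith [P.b1]
  rw [e]
  apply neg_neg_of_pos
  apply mul_pos hβ
  have := P.fr; have := P.f1; have := P.f2; have := P.r1; have := P.r2
  have := P.z1; have := P.z2; have := P.c1; have := P.c2; have h4 := P.z4
  have e2 : -((13/2-1/2*z^2)*(2+2*z-z^2)+1/2-6*z^2) + 4*(6-2*z^2)*r
    = -(13 + 13*z - 13/2*z^2 - z^2 - z^3 + 1/2*z^4 + 1/2 - 6*z^2) + 24*r - 8*(z^2*r) := by ring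
  rw [e2, h4]
  linarith

lemma Par.u_neg (P : Par z r β n M) : uu M n β (z^2) < 0 := by
  have e : uu M n β (z^2) = -(2*z^2+1)*(β*(2+2*z-z^2)) + 8*(z^2*r)*β + n*(1-2*β) - z^2 := by
    unfold uu
    linear_combination (-(2*z^2+1))*P.h0 + 2*z^2*P.ha
  rw [e]
  have := P.fr; have := P.f1; have := P.f2; have := P.r1; have := P.r2
  have := P.z1; have := P.z2; have := P.c1; have := P.c2; have h4 := P.z4
  have := P.b1; have := P.b2; have := P.n1; have := P.n2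
  have k1 : (2*z^2+1)*(2+2*z-z^2) = 4*z^3 - 2*z^4 + 4*z^2 - z^2 + 2*z + 2 := by ring
  have k2 : -(2*z^2+1)*(β*(2+2*z-z^2)) = -β*(4*z^3 - 2*(z^2+1) + 3*z^2 + 2*z + 2) := by
    rw [← h4]; linear_combination (-β) * k1
  rw [k2]
  have k3 : n*(1-2*β) ≤ 2.595*(1-2*0.467) := by
    have : 0 < 1 - 2*β := by linarith
    nlinarith
  have k4 : 12.3 ≤ 4*z^3 - 2*(z^2+1) + 3*z^2 + 2*z + 2 := by linarith
  nlinarith

end Pool.Agent.R238.HB
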