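import Pool.Agent.R238.HB.Stm

/-! HB-P1: interpolation inequality (necessity). -/

namespace Pool.Agent.R238.HB

namespace P1

theorem line_deriv {d : ℕ} {g : E d → ℝ} {g' y v : E d} {s : ℝ}
    (hg : HasGradientAt g g' (y + s • v)) :
    HasDerivAt (fun t : ℝ => g (y + t • v)) (inner ℝ g' v) s := by
  have h1 := hg.hasFDerivAt
  have h2 : HasDerivAt (fun t : ℝ => y + t • v) v s := by
    simpa using ((hasDerivAt_id s).smul_const v).const_add y
  exact (h1.comp_hasDerivAt s h2).congr_deriv (by simp)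

/-- first order condition for convexity -/
theorem first_order {d : ℕ} {h : E d → ℝ} (hc : ConvexOn ℝ Set.univ h) {x z g : E d}
    (hg : HasGradientAt h g x) : h x + inner ℝ g (z - x) ≤ h z := by
  have h1 : ConvexOn ℝ Set.univ (fun t : ℝ => h (x + t • (z - x))) := by
    have h2 := hc.comp_affineMap (AffineMap.lineMap x z : ℝ →ᵃ[ℝ] E d)
    rw [Set.preimage_univ] at h2
    have h3 : (fun t : ℝ => h (x + t • (z - x))) = h ∘ (AffineMap.lineMap x z : ℝ →ᵃ[ℝ] E d) := by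
      funext t
      rw [Function.comp_apply, AffineMap.lineMap_apply, vsub_eq_sub, vadd_eq_add, add_comm]
    rw [h3]
    exact h2
  have h2 : HasDerivAt (fun t : ℝ => h (x + t • (z - x))) (inner ℝ g (z - x)) 0 :=
    line_deriv (by rw [zero_smul, add_zero]; exact hg)
  have h3 := h1.le_slope_of_hasDerivAt (Set.mem_univ 0) (Set.mem_univ 1) zero_lt_one h2
  rw [slope_def_field] at h3
  simp only [one_smul, zero_smul, add_zero, sub_zero, div_one, add_sub_cancel] at h3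
  linarith

/-- the descent lemma -/
theorem descent {d : ℕ} {f : E d → ℝ} {L : ℝ} (hd : Differentiable ℝ f)
    (hL : ∀ x y : E d, ‖gradient f x - gradient f y‖ ≤ L * ‖x - y‖) (y z : E d) :
    f z ≤ f y + inner ℝ (gradient f y) (z - y) + L / 2 * ‖z - y‖ ^ 2 := by
  obtain ⟨v, hv⟩ : ∃ v, v = z - y := ⟨_, rfl⟩
  rw [← hv]
  have h1 : ∀ s : ℝ, HasDerivAt (fun t : ℝ => f (y + t • v) - t * inner ℝ (gradient f y) v -
      L / 2 * t ^ 2 * ‖v‖ ^ 2) (inner ℝ (gradient f (y + s • v)) v -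
      inner ℝ (gradient f y) v - L * s * ‖v‖ ^ 2) s := by
    intro s
    have h2 := line_deriv (hd (y + s • v)).hasGradientAt
    have h3 : HasDerivAt (fun t : ℝ => t * inner ℝ (gradient f y) v)
        (inner ℝ (gradient f y) v) s := by
      simpa using (hasDerivAt_id s).mul_const (inner ℝ (gradient f y) v)
    have h4 : HasDerivAt (fun t : ℝ => L / 2 * t ^ 2 * ‖v‖ ^ 2) (L * s * ‖v‖ ^ 2) s := by
      have h5 := ((hasDerivAt_pow 2 s).const_mul (L / 2)).mul_const (‖v‖ ^ 2)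
      refine h5.congr_deriv ?_
      ring
    exact (h2.sub h3).sub h4
  have h2 : AntitoneOn (fun t : ℝ => f (y + t • v) - t * inner ℝ (gradient f y) v -
      L / 2 * t ^ 2 * ‖v‖ ^ 2) (Set.Icc 0 1) := by
    refine antitoneOn_of_deriv_nonpos (convex_Icc 0 1)
      (fun s _ => (h1 s).continuousAt.continuousWithinAt)
      (fun s _ => (h1 s).differentiableAt.differentiableWithinAt) fun s hs => ?_
    rw [(h1 s).deriv]
    rw [interior_Icc] at hs
    have h3 : inner ℝ (gradient f (y + s • v) - gradient f y) v ≤ L * s * ‖v‖ ^ 2 := by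
      refine (real_inner_le_norm _ _).trans ?_
      have h4 := hL (y + s • v) y
      have h5 : y + s • v - y = s • v := by abel
      rw [h5, norm_smul, Real.norm_of_nonneg hs.1.le] at h4
      calc ‖gradient f (y + s • v) - gradient f y‖ * ‖v‖ ≤ L * (s * ‖v‖) * ‖v‖ :=
            mul_le_mul_of_nonneg_right h4 (norm_nonneg _)
        _ = L * s * ‖v‖ ^ 2 := by ring
    rw [inner_sub_left] at h3
    linarith
  have h3 := h2 (Set.left_mem_Icc.2 zero_le_one) (Set.right_mem_Icc.2 zero_le_one) zero_le_one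
  have h4 : y + v = z := by rw [hv]; abel
  simp only [one_smul, zero_smul, add_zero, h4] at h3
  linarith

theorem fin_ineq {d : ℕ} {D : ℝ} (hD : 0 < D) (a b x y : E d) (hx hy : ℝ)
    (h : ‖b - a‖ ^ 2 / (2 * D) ≤ hy - hx - inner ℝ a (y - x)) :
    (hx / D - ‖(1 / D) • a‖ ^ 2 / 2) +
      inner ℝ ((1 / D) • a) ((y - (1 / D) • b) - (x - (1 / D) • a)) ≤
      hy / D - ‖(1 / D) • b‖ ^ 2 / 2 := by
  have h1 : ‖b - a‖ ^ 2 = ‖b‖ ^ 2 - 2 * inner ℝ a b + ‖a‖ ^ 2 := by
    rw [norm_sub_sq_real, real_inner_comm]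
  have h2 : inner ℝ a a = ‖a‖ ^ 2 := real_inner_self_eq_norm_sq a
  rw [h1] at h
  have h3 : inner ℝ ((1 / D) • a) ((y - (1 / D) • b) - (x - (1 / D) • a)) =
      (1 / D) * inner ℝ a (y - x) - (1 / D) ^ 2 * inner ℝ a b + (1 / D) ^ 2 * ‖a‖ ^ 2 := by
    rw [← h2]
    simp only [inner_sub_right, real_inner_smul_left, real_inner_smul_right]
    ring
  rw [h3, norm_smul, norm_smul, mul_pow, mul_pow, Real.norm_eq_abs, sq_abs]
  have h4 := mul_le_mul_of_nonneg_left h (one_div_pos.2 hD).le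
  have h5 : 1 / D * ((‖b‖ ^ 2 - 2 * inner ℝ a b + ‖a‖ ^ 2) / (2 * D)) =
      (1 / D) ^ 2 * (‖b‖ ^ 2 - 2 * inner ℝ a b + ‖a‖ ^ 2) / 2 := by
    field_simp
  have h6 : hx / D = 1 / D * hx := by ring
  have h7 : hy / D = 1 / D * hy := by ring
  rw [h5] at h4
  rw [h6, h7]
  linarith

end P1

theorem p1 : St_P1 := by
  intro d μ L hμL f hf
  obtain ⟨hd, hs, hL⟩ := hf
  have hD : 0 < L - μ := sub_pos.2 hμL
  have hc := strongConvexOn_iff_convex.1 hs
  have hg : ∀ x : E d, HasGradientAt (fun x => f x - μ / 2 * ‖x‖ ^ 2)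
      (gradient f x - μ • x) x := by
    intro x
    have h1 := (hd x).hasGradientAt.hasFDerivAt
    have h2 : HasFDerivAt (fun x : E d => μ / 2 * ‖x‖ ^ 2)
        ((μ / 2) • ((2 : ℕ) • innerSL ℝ x)) x :=
      ((hasStrictFDerivAt_norm_sq x).hasFDerivAt).const_mul (μ / 2)
    rw [hasGradientAt_iff_hasFDerivAt]
    refine (h1.sub h2).congr_fderiv ?_
    ext v
    simp only [sub_apply, smul_apply, innerSL_apply_apply,
      InnerProductSpace.toDual_apply_apply, smul_eq_mul, map_sub, nsmul_eq_mul, Nat.cast_ofNat]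
    rw [real_inner_smul_left]
    ring
  refine ⟨fun x => (f x - μ / 2 * ‖x‖ ^ 2) / (L - μ) -
    ‖(1 / (L - μ)) • (gradient f x - μ • x)‖ ^ 2 / 2, fun x y => ?_⟩
  refine P1.fin_ineq hD _ _ x y _ _ ?_
  obtain ⟨a, ha⟩ : ∃ a, a = gradient f x - μ • x := ⟨_, rfl⟩
  obtain ⟨b, hb⟩ : ∃ b, b = gradient f y - μ • y := ⟨_, rfl⟩
  obtain ⟨z, hz⟩ : ∃ z, z = y - (1 / (L - μ)) • (b - a) := ⟨_, rfl⟩
  have h1 := P1.first_order (z := z) hc (hg x)
  have h2 := P1.descent hd hL y z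
  rw [← ha] at h1 ⊢
  rw [← hb]
  have hby : gradient f y = b + μ • y := by rw [hb]; abel
  rw [hby] at h2
  have hzy : z - y = -((1 / (L - μ)) • (b - a)) := by rw [hz]; abel
  -- the quadratic part
  have hz2 : ‖z‖ ^ 2 = ‖y‖ ^ 2 + 2 * inner ℝ y (z - y) + ‖z - y‖ ^ 2 := by
    have h3 : z = y + (z - y) := by abel
    conv_lhs => rw [h3]
    rw [norm_add_sq_real]
  have h3 : f z - μ / 2 * ‖z‖ ^ 2 ≤ (f y - μ / 2 * ‖y‖ ^ 2) + inner ℝ b (z - y) +
      (L - μ) / 2 * ‖z - y‖ ^ 2 := by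
    rw [inner_add_left, real_inner_smul_left] at h2
    rw [hz2]
    linarith
  have h4 : inner ℝ a (z - x) = inner ℝ a (y - x) - 1 / (L - μ) * inner ℝ a (b - a) := by
    have h5 : z - x = (y - x) - (1 / (L - μ)) • (b - a) := by rw [hz]; abel
    rw [h5, inner_sub_right, real_inner_smul_right]
  have h5 : inner ℝ b (z - y) = - (1 / (L - μ) * inner ℝ b (b - a)) := by
    rw [hzy, inner_neg_right, real_inner_smul_right]
  have h6 : ‖z - y‖ ^ 2 = (1 / (L - μ)) ^ 2 * ‖b - a‖ ^ 2 := by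
    rw [hzy, norm_neg, norm_smul, mul_pow, Real.norm_eq_abs, sq_abs]
  have h7 : inner ℝ b (b - a) - inner ℝ a (b - a) = ‖b - a‖ ^ 2 := by
    rw [← inner_sub_left, real_inner_self_eq_norm_sq]
  have h8 := h1.trans h3
  rw [h4, h5, h6] at h8
  have h9 : (L - μ) / 2 * ((1 / (L - μ)) ^ 2 * ‖b - a‖ ^ 2) = ‖b - a‖ ^ 2 / (2 * (L - μ)) := by
    field_simp
  have h10 : 1 / (L - μ) * inner ℝ b (b - a) - 1 / (L - μ) * inner ℝ a (b - a) =
      2 * (‖b - a‖ ^ 2 / (2 * (L - μ))) := by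
    rw [← mul_sub, h7]
    field_simp
  rw [h9] at h8
  linarith

end Pool.Agent.R238.HB
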