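import Pool.Agent.R238.HB.Seq
import Pool.Agent.R238.HB.Num
import Pool.Agent.R238.HB.P1

noncomputable section

namespace Pool.Agent.R238.HB

variable {z r β n M : ℝ}

theorem one (P : Par z r β n M) (K : ℕ) (hK : 3 ≤ K) (x : ZMod K → E 1)
    (hx : IsCycle (1+β-M) (1+β-M+n) 1 β x) : False := by
  haveI : NeZero K := ⟨by omega⟩
  have hn : 0 < n := by linarith [P.n1]
  obtain ⟨⟨i, j, hij⟩, f, hf, hhb⟩ := hx
  obtain ⟨Φ, hΦ⟩ := p1 1 (1+β-M) (1+β-M+n) (by linarith) f hf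
  have hD : (1:ℝ) / (1+β-M+n - (1+β-M)) = 1/n := by congr 1; ring
  rw [hD] at hΦ
  -- recursion
  have hrec : ∀ τ : ZMod K, x (τ+1) = x τ - (1:ℝ) • gradient f (x τ) + β • (x τ - x (τ-1)) := by
    intro τ
    have h0 := hhb (τ-1).val
    have h1 := hhb ((τ-1).val + 1)
    have h2 := hhb ((τ-1).val + 2)
    rw [hb, h0, h1] at h2
    push_cast at h2
    rw [ZMod.natCast_zmod_val] at h2
    rw [show τ - 1 + 1 = τ by ring, show τ - 1 + 2 = τ + 1 by ring] at h2
    exact h2.symm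
  set p : E 1 → E 1 := fun y => (1/n) • (gradient f y - (1+β-M) • y) with hp
  have hnp : ∀ τ : ZMod K, n • p (x τ) = M • x τ - β • x (τ-1) - x (τ+1) := by
    intro τ
    rw [hrec τ]
    simp only [hp]
    rw [smul_smul, mul_one_div_cancel hn.ne']
    module
  have hcoord : ∀ τ : ZMod K, n * (p (x τ)) 0 = M * (x τ) 0 - β * (x (τ-1)) 0 - (x (τ+1)) 0 := by
    intro τ
    have := congrArg (fun v : E 1 => v 0) (hnp τ)
    simpa using this
  have hineq : ∀ s t : ZMod K, Φ (x s) + (p (x s)) 0 * (((x t) 0 - (p (x t)) 0) - ((x s) 0 - (p (x s)) 0))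
      ≤ Φ (x t) := by
    intro s t
    have h := hΦ (x s) (x t)
    have e : inner ℝ (p (x s)) ((x t - p (x t)) - (x s - p (x s)))
        = (p (x s)) 0 * (((x t) 0 - (p (x t)) 0) - ((x s) 0 - (p (x s)) 0)) := by
      simp [PiLp.inner_apply, mul_comm]
    rw [← e]
    exact h
  have hconst := oneD M n β z hn (by linarith [P.b1]) P.h1 P.h0 P.hr' P.z4
    (by linarith [P.f1]) (by linarith [P.f2]) (by linarith [P.z1]) P.cP_pos.ne' P.cQ_neg.ne P.u_neg.ne
    (fun τ => (x τ) 0) (fun τ => Φ (x τ)) (fun τ => (p (x τ)) 0) hcoord hineq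
  apply hij
  ext k
  fin_cases k
  exact hconst i j

end Pool.Agent.R238.HB
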