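import Pool.Agent.R238.HB.Core2

noncomputable section

namespace Pool.Agent.R238.HB

/-- the number `z = sqrt golden ratio` and its numerical bounds -/
lemma exists_z : ∃ z : ℝ, z^4 = z^2 + 1 ∧ z^2 = (1 + Real.sqrt 5)/2 ∧ 1.27201 < z ∧ z < 1.27202 ∧
    1.61803 < z^2 ∧ z^2 < 1.618035 ∧ 2.0581 < z^3 ∧ z^3 < 2.0582 := by
  have s5 : Real.sqrt 5 ^ 2 = 5 := Real.sq_sqrt (by norm_num)
  have s0 : 0 ≤ Real.sqrt 5 := Real.sqrt_nonneg 5
  have s1 : 2.236067 < Real.sqrt 5 := by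
    apply Real.lt_sqrt_of_sq_lt; norm_num
  have s2 : Real.sqrt 5 < 2.236069 := by
    rw [Real.sqrt_lt' (by norm_num)]; norm_num
  have hz2 : Real.sqrt ((1 + Real.sqrt 5)/2) ^ 2 = (1 + Real.sqrt 5)/2 := Real.sq_sqrt (by linarith)
  have z1 : 1.27201 < Real.sqrt ((1 + Real.sqrt 5)/2) := by
    apply Real.lt_sqrt_of_sq_lt; norm_num; linarith
  have z2 : Real.sqrt ((1 + Real.sqrt 5)/2) < 1.27202 := by
    rw [Real.sqrt_lt' (by norm_num)]; norm_num; linarith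
  refine ⟨Real.sqrt ((1 + Real.sqrt 5)/2), ?_, hz2, z1, z2, ?_, ?_, ?_, ?_⟩
  · have : Real.sqrt ((1 + Real.sqrt 5)/2) ^ 4 = (Real.sqrt ((1 + Real.sqrt 5)/2) ^ 2)^2 := by ring
    rw [this, hz2]
    linear_combination (1/4) * s5
  · rw [hz2]; linarith
  · rw [hz2]; linarith
  · have : Real.sqrt ((1 + Real.sqrt 5)/2) ^ 3 = Real.sqrt ((1 + Real.sqrt 5)/2) * (Real.sqrt ((1 + Real.sqrt 5)/2) ^ 2) := by ring
    rw [this, hz2]
    nlinarith
  · have : Real.sqrt ((1 + Real.sqrt 5)/2) ^ 3 = Real.sqrt ((1 + Real.sqrt 5)/2) * (Real.sqrt ((1 + Real.sqrt 5)/2) ^ 2) := by ring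
    rw [this, hz2]
    nlinarith

lemma r_bounds (z r : ℝ) (h1 : 1.27201 < z) (h2 : z < 1.27202) (h3 : 1.61803 < z^2) (h4 : z^2 < 1.618035)
    (hr : r*(z^2+2*z+2) = 2*(1+z)) : 0.7374 < r ∧ r < 0.73743 := by
  constructor
  · by_contra hc
    push Not at hc
    nlinarith
  · by_contra hc
    push Not at hc
    nlinarith

/-- existence of the tuning parameter `β` -/
lemma exists_beta (z r : ℝ) (h1 : 1.27201 < z) (h2 : z < 1.27202) (h3 : 1.61803 < z^2) (h4 : z^2 < 1.618035)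
    (hr1 : 0.7374 < r) (hr2 : r < 0.73743) :
    ∃ β : ℝ, 0.467 < β ∧ β < 0.468 ∧
      (β*(2+4*β*r/(1-β))/(1+β)) * (4*β*r/(1-β) - β*(2+4*β*r/(1-β))/(1+β))
        - (1-β)^2 - β*(2+2*z-z^2) = 0 := by
  set H : ℝ → ℝ := fun β => (β*(2+4*β*r/(1-β))/(1+β)) * (4*β*r/(1-β) - β*(2+4*β*r/(1-β))/(1+β))
        - (1-β)^2 - β*(2+2*z-z^2) with hH
  have hcont : ContinuousOn H (Set.Icc 0.467 0.468) := by
    have a1 : ∀ β ∈ Set.Icc (0.467:ℝ) 0.468, 1 - β ≠ 0 := by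
      intro β hβ; have := hβ.2; linarith
    have a2 : ∀ β ∈ Set.Icc (0.467:ℝ) 0.468, 1 + β ≠ 0 := by
      intro β hβ; have := hβ.1; linarith
    have c1 : ContinuousOn (fun β : ℝ => 4*β*r/(1-β)) (Set.Icc 0.467 0.468) :=
      ContinuousOn.div (by fun_prop) (by fun_prop) a1
    have c2 : ContinuousOn (fun β : ℝ => β*(2+4*β*r/(1-β))/(1+β)) (Set.Icc 0.467 0.468) :=
      ContinuousOn.div (continuousOn_id.mul (continuousOn_const.add c1)) (by fun_prop) a2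
    exact ((c2.mul (c1.sub c2)).sub (by fun_prop)).sub (by fun_prop)
  have hlo : H 0.467 < 0 := by
    simp only [hH]
    have e : (0.467*(2+4*0.467*r/(1-0.467))/(1+0.467)) * (4*0.467*r/(1-0.467) - 0.467*(2+4*0.467*r/(1-0.467))/(1+0.467))
        - (1-0.467)^2 - 0.467*(2+2*z-z^2)
        = (934/1467 + (467/1467)*(1868/533)*r) * ((1868/533)*r*(1000/1467) - 934/1467) - (533/1000)^2 - (467/1000)*(2+2*z-z^2) := by
      norm_num; ring
    rw [e]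
    nlinarith
  have hhi : 0 < H 0.468 := by
    simp only [hH]
    have e : (0.468*(2+4*0.468*r/(1-0.468))/(1+0.468)) * (4*0.468*r/(1-0.468) - 0.468*(2+4*0.468*r/(1-0.468))/(1+0.468))
        - (1-0.468)^2 - 0.468*(2+2*z-z^2)
        = (936/1468 + (468/1468)*(1872/532)*r) * ((1872/532)*r*(1000/1468) - 936/1468) - (532/1000)^2 - (468/1000)*(2+2*z-z^2) := by
      norm_num; ring
    rw [e]
    nlinarith
  have hmem : (0:ℝ) ∈ Set.Ioo (H 0.467) (H 0.468) := ⟨hlo, hhi⟩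
  obtain ⟨β, hβ, hβ0⟩ := intermediate_value_Ioo (by norm_num : (0.467:ℝ) ≤ 0.468) hcont hmem
  exact ⟨β, hβ.1, hβ.2, hβ0⟩

/-- The parameter package. -/
structure Par (z r β n M : ℝ) : Prop where
  z4 : z^4 = z^2 + 1
  zsq : z^2 = (1 + Real.sqrt 5)/2
  z1 : 1.27201 < z
  z2 : z < 1.27202
  f1 : 1.61803 < z^2
  f2 : z^2 < 1.618035
  c1 : 2.0581 < z^3
  c2 : z^3 < 2.0582
  hr : r*(z^2+2*z+2) = 2*(1+z)
  r1 : 0.7374 < r
  r2 : r < 0.73743
  b1 : 0.467 < β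
  b2 : β < 0.468
  ha : n*(1-β) = 4*β*r
  hb : M*(1+β) = β*(2+n)
  hc : M*(n-M) = (1-β)^2 + β*(2+2*z-z^2)
  n1 : 2.58 < n
  n2 : n < 2.595
  M1 : 0 < M
  hm : M < 1 + β

lemma exists_par : ∃ z r β n M : ℝ, Par z r β n M := by
  obtain ⟨z, z4, zsq, z1, z2, f1, f2, c1, c2⟩ := exists_z
  have hpos : 0 < z^2+2*z+2 := by positivity
  have hr : (2*(1+z)/(z^2+2*z+2))*(z^2+2*z+2) = 2*(1+z) := by field_simp
  obtain ⟨r1, r2⟩ := r_bounds z (2*(1+z)/(z^2+2*z+2)) z1 z2 f1 f2 hr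
  generalize 2*(1+z)/(z^2+2*z+2) = r at hr r1 r2
  obtain ⟨β, b1, b2, hβ⟩ := exists_beta z r z1 z2 f1 f2 r1 r2
  have hb1 : 1 - β ≠ 0 := by linarith
  have hb2 : 1 + β ≠ 0 := by linarith
  have ha : (4*β*r/(1-β))*(1-β) = 4*β*r := by field_simp
  have hb : (β*(2+4*β*r/(1-β))/(1+β))*(1+β) = β*(2+4*β*r/(1-β)) := by
    rw [div_mul_cancel₀ _ hb2]
  generalize 4*β*r/(1-β) = n at *
  generalize β*(2+n)/(1+β) = M at *
  have n1 : 2.58 < n := by
    by_contra hc; push Not at hc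
    have : n*(1-β) ≤ 2.58*(1-β) := mul_le_mul_of_nonneg_right hc (by linarith)
    nlinarith
  have n2 : n < 2.595 := by
    by_contra hc; push Not at hc
    have : 2.595*(1-β) ≤ n*(1-β) := mul_le_mul_of_nonneg_right hc (by linarith)
    nlinarith
  have M1 : 0 < M := by
    by_contra hc; push Not at hc
    have : M*(1+β) ≤ 0 := mul_nonpos_of_nonpos_of_nonneg hc (by linarith)
    nlinarith
  have hm : M < 1 + β := by
    by_contra hc; push Not at hc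
    have : (1+β)*(1+β) ≤ M*(1+β) := mul_le_mul_of_nonneg_right hc (by linarith)
    nlinarith
  exact ⟨z, r, β, n, M, ⟨z4, zsq, z1, z2, f1, f2, c1, c2, hr, r1, r2, b1, b2, ha, hb, by linarith, n1, n2, M1, hm⟩⟩

end Pool.Agent.R238.HB
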