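import Pool.Agent.R238.HB.Tele

noncomputable section

namespace Pool.Agent.R238.HB

/-- ten consecutive defects vanish: the sequence vanishes -/
lemma seq10 (M n β f : ℝ) (hf : f^2 - f - 1 = 0) (hf1 : 1 < f) (hf2 : f < 2)
    (hcP : cPp M n β f ≠ 0) (hcQ : cQq M n β f ≠ 0) (hu : uu M n β f ≠ 0)
    (s : ℕ → ℝ) (hrec : ∀ i, s (i+4) = -f * s (i+2) - s i)
    (hG : ∀ i, G M n β (s i) (s (i+1)) (s (i+2)) (s (i+3)) (s (i+4)) = 0) : s 0 = 0 := by
  have s4 : s 4 = -f * s 2 - s 0 := hrec 0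
  have s5 : s 5 = -f * s 3 - s 1 := hrec 1
  have s6 : s 6 = f * (s 0 + s 2) := by
    have h : s 6 = -f * s 4 - s 2 := hrec 2
    rw [h, s4]; linear_combination s 2 * hf
  have s7 : s 7 = f * (s 1 + s 3) := by
    have h : s 7 = -f * s 5 - s 3 := hrec 3
    rw [h, s5]; linear_combination s 3 * hf
  have s8 : s 8 = -f * s 0 - s 2 := by
    have h : s 8 = -f * s 6 - s 4 := hrec 4
    rw [h, s6, s4]; linear_combination (-(s 0 + s 2)) * hf
  have s9 : s 9 = -f * s 1 - s 3 := by
    have h : s 9 = -f * s 7 - s 5 := hrec 5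
    rw [h, s7, s5]; linear_combination (-(s 1 + s 3)) * hf
  have s10 : s 10 = s 0 := by
    have h : s 10 = -f * s 8 - s 6 := hrec 6
    rw [h, s8, s6]; linear_combination s 0 * hf
  have s11 : s 11 = s 1 := by
    have h : s 11 = -f * s 9 - s 7 := hrec 7
    rw [h, s9, s7]; linear_combination s 1 * hf
  have s12 : s 12 = s 2 := by
    have h : s 12 = -f * s 10 - s 8 := hrec 8
    rw [h, s10, s8]; ring
  have s13 : s 13 = s 3 := by
    have h : s 13 = -f * s 11 - s 9 := hrec 9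
    rw [h, s11, s9]; ring
  have G0 : G M n β (s 0) (s 1) (s 2) (s 3) (s 4) = 0 := hG 0
  have G1 : G M n β (s 1) (s 2) (s 3) (s 4) (s 5) = 0 := hG 1
  have G2 : G M n β (s 2) (s 3) (s 4) (s 5) (s 6) = 0 := hG 2
  have G3 : G M n β (s 3) (s 4) (s 5) (s 6) (s 7) = 0 := hG 3
  have G4 : G M n β (s 4) (s 5) (s 6) (s 7) (s 8) = 0 := hG 4
  have G5 : G M n β (s 5) (s 6) (s 7) (s 8) (s 9) = 0 := hG 5
  have G6 : G M n β (s 6) (s 7) (s 8) (s 9) (s 10) = 0 := hG 6
  have G7 : G M n β (s 7) (s 8) (s 9) (s 10) (s 11) = 0 := hG 7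
  have G8 : G M n β (s 8) (s 9) (s 10) (s 11) (s 12) = 0 := hG 8
  have G9 : G M n β (s 9) (s 10) (s 11) (s 12) (s 13) = 0 := hG 9
  rw [s4] at G0
  rw [s4, s5] at G1
  rw [s4, s5, s6] at G2
  rw [s4, s5, s6, s7] at G3
  rw [s4, s5, s6, s7, s8] at G4
  rw [s5, s6, s7, s8, s9] at G5
  rw [s6, s7, s8, s9, s10] at G6
  rw [s7, s8, s9, s10, s11] at G7
  rw [s8, s9, s10, s11, s12] at G8
  rw [s9, s10, s11, s12, s13] at G9
  exact (core_zero M n β f hf hf1 hf2 hcP hcQ hu _ _ _ _ G0 G1 G2 G3 G4 G5 G6 G7 G8 G9).1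

lemma oneD {K : ℕ} [NeZero K] (M n β z : ℝ) (hn : 0 < n) (hβ : 0 < β)
    (h1 : (1+β)*(2*M-n) - (4*β - n*(1-β)) = 0)
    (h0 : M*(n-M) - (1-β)^2 - β*(2+2*z-z^2) = 0)
    (hr : n*(1-β)*(z^2+2*z+2) - 8*β*(1+z) = 0)
    (hz4 : z^4 = z^2 + 1) (hz1 : 1 < z^2) (hz2 : z^2 < 2) (hz0 : 0 < z)
    (hcP : cPp M n β (z^2) ≠ 0) (hcQ : cQq M n β (z^2) ≠ 0) (hu : uu M n β (z^2) ≠ 0)
    (x Φ p : ZMod K → ℝ)
    (hp : ∀ t, n * p t = M * x t - β * x (t-1) - x (t+1))
    (hΦ : ∀ s t, Φ s + p s * ((x t - p t) - (x s - p s)) ≤ Φ t) :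
    ∀ i j, x i = x j := by
  classical
  have hf : (z^2)^2 - z^2 - 1 = 0 := by linear_combination hz4
  -- shift invariance of sums
  have shift : ∀ (h : ZMod K → ℝ) (c : ZMod K), ∑ a, h (a + c) = ∑ a, h a := fun h c =>
    Equiv.sum_comp (Equiv.addRight c) h
  -- recurrences at base a
  have hpa : ∀ a : ZMod K, n * p (a+1) = M * x (a+1) - β * x a - x (a+2) := by
    intro a
    have := hp (a+1)
    rw [show a + 1 - 1 = a by ring, show a + 1 + 1 = a + 2 by ring] at this
    exact this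
  have hp2 : ∀ a : ZMod K, n * p (a+2) = M * x (a+2) - β * x (a+1) - x (a+3) := by
    intro a
    have := hpa (a+1)
    rw [show a + 1 + 1 = a + 2 by ring, show a + 1 + 2 = a + 3 by ring] at this
    exact this
  have hp3 : ∀ a : ZMod K, n * p (a+3) = M * x (a+3) - β * x (a+2) - x (a+4) := by
    intro a
    have := hpa (a+2)
    rw [show a + 2 + 1 = a + 3 by ring, show a + 2 + 2 = a + 4 by ring] at this
    exact this
  have hp4 : ∀ a : ZMod K, n * p (a+4) = M * x (a+4) - β * x (a+3) - x (a+5) := by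
    intro a
    have := hpa (a+3)
    rw [show a + 3 + 1 = a + 4 by ring, show a + 3 + 2 = a + 5 by ring] at this
    exact this
  have hp5 : ∀ a : ZMod K, n * p (a+5) = M * x (a+5) - β * x (a+4) - x (a+6) := by
    intro a
    have := hpa (a+4)
    rw [show a + 4 + 1 = a + 5 by ring, show a + 4 + 2 = a + 6 by ring] at this
    exact this
  set g1 : ZMod K → ℝ := fun a => Φ (a+1) - Φ (a+2)
    - p (a+2) * ((x (a+1) - p (a+1)) - (x (a+2) - p (a+2))) with hg1
  set g3 : ZMod K → ℝ := fun a => Φ (a+5) - Φ (a+2)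
    - p (a+2) * ((x (a+5) - p (a+5)) - (x (a+2) - p (a+2))) with hg3
  set F : ZMod K → ℝ := fun a => (x (a+6) - x (a+5)) + z^2 * (x (a+4) - x (a+3))
    + (x (a+2) - x (a+1)) with hF
  set W' : ZMod K → ℝ := fun a => W M n β z (x a) (x (a+1)) (x (a+2)) (x (a+3)) (x (a+4)) (x (a+5))
    with hW
  have g1n : ∀ a, 0 ≤ g1 a := by
    intro a
    have := hΦ (a+2) (a+1)
    simp only [hg1]; linarith
  have g3n : ∀ a, 0 ≤ g3 a := by
    intro a
    have := hΦ (a+2) (a+5)
    simp only [hg3]; linarith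
  have key : ∀ a, n^2*((1+z)^2 * g1 a + g3 a) + β/2*(F a)^2
      = n^2*(1+z)^2*(Φ (a+1) - Φ (a+2)) + n^2*(Φ (a+5) - Φ (a+2)) + (W' (a+1) - W' a) := by
    intro a
    have t := tele M n β z (x a) (x (a+1)) (x (a+2)) (x (a+3)) (x (a+4)) (x (a+5)) (x (a+6)) h1 h0 hr
    have e : W' (a+1) = W M n β z (x (a+1)) (x (a+2)) (x (a+3)) (x (a+4)) (x (a+5)) (x (a+6)) := by
      simp only [hW]
      rw [show a + 1 + 1 = a + 2 by ring, show a + 1 + 2 = a + 3 by ring,
        show a + 1 + 3 = a + 4 by ring, show a + 1 + 4 = a + 5 by ring,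
        show a + 1 + 5 = a + 6 by ring]
    rw [e]
    simp only [hW, hg1, hg3, hF]
    rw [← hpa a, ← hp2 a, ← hp5 a] at t
    linear_combination t
  have hsum : ∑ a, (n^2*((1+z)^2 * g1 a + g3 a) + β/2*(F a)^2) = 0 := by
    rw [Finset.sum_congr rfl (fun a _ => key a)]
    simp only [Finset.sum_add_distrib, Finset.sum_sub_distrib, ← Finset.mul_sum]
    rw [shift Φ 1, shift Φ 2, shift Φ 5, shift W' 1]
    ring
  have hz := (Finset.sum_eq_zero_iff_of_nonneg (fun a _ => by
    have := g1n a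
    have := g3n a
    positivity)).mp hsum
  have hall : ∀ a, g1 a = 0 ∧ g3 a = 0 ∧ F a = 0 := by
    intro a
    have h := hz a (Finset.mem_univ a)
    have a1 := g1n a
    have a3 := g3n a
    have c1 : 0 ≤ n^2*((1+z)^2 * g1 a) := by positivity
    have c3 : 0 ≤ n^2*(g3 a) := by positivity
    have cF : 0 ≤ β/2*(F a)^2 := by positivity
    have d1 : n^2*((1+z)^2 * g1 a) = 0 := by linarith
    have d3 : n^2*(g3 a) = 0 := by linarith
    have dF : β/2*(F a)^2 = 0 := by linarith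
    refine ⟨?_, ?_, ?_⟩
    · have : n^2*(1+z)^2 ≠ 0 := by positivity
      have h' : (n^2*(1+z)^2) * g1 a = 0 := by linarith
      exact (mul_eq_zero.mp h').resolve_left this
    · have : n^2 ≠ 0 := by positivity
      exact (mul_eq_zero.mp d3).resolve_left this
    · have : β/2 ≠ 0 := by positivity
      have h' := (mul_eq_zero.mp dF).resolve_left this
      exact pow_eq_zero_iff (two_ne_zero) |>.mp h'
  -- difference sequence
  have hrec : ∀ a : ZMod K, (x (a+6) - x (a+5)) = - z^2 * (x (a+4) - x (a+3)) - (x (a+2) - x (a+1)) := by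
    intro a
    have := (hall a).2.2
    simp only [hF] at this
    linarith
  have hG : ∀ a : ZMod K, G M n β (x (a+2) - x (a+1)) (x (a+3) - x (a+2)) (x (a+4) - x (a+3))
      (x (a+5) - x (a+4)) (x (a+6) - x (a+5)) = 0 := by
    intro a
    have q0 := (hall a).2.1
    have q1 := (hall (a+1)).1
    have q2 := (hall (a+2)).1
    have q3 := (hall (a+3)).1
    simp only [hg1, hg3] at q0 q1 q2 q3
    rw [show a + 1 + 1 = a + 2 by ring, show a + 1 + 2 = a + 3 by ring] at q1
    rw [show a + 2 + 1 = a + 3 by ring, show a + 2 + 2 = a + 4 by ring] at q2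
    rw [show a + 3 + 1 = a + 4 by ring, show a + 3 + 2 = a + 5 by ring] at q3
    have r2 := hp2 a
    have r3 := hp3 a
    have r4 := hp4 a
    have r5 := hp5 a
    generalize x (a+1) = x1 at *
    generalize x (a+2) = x2 at *
    generalize x (a+3) = x3 at *
    generalize x (a+4) = x4 at *
    generalize x (a+5) = x5 at *
    generalize x (a+6) = x6 at *
    generalize p (a+2) = p2 at *
    generalize p (a+3) = p3 at *
    generalize p (a+4) = p4 at *
    generalize p (a+5) = p5 at *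
    have e : p2*((x5 - p5) - (x2 - p2)) + p3*((x2-p2)-(x3-p3)) + p4*((x3-p3)-(x4-p4))
        + p5*((x4-p4)-(x5-p5)) = 0 := by linarith
    have e' : (n*p2)*((n*x5 - n*p5) - (n*x2 - n*p2)) + (n*p3)*((n*x2-n*p2)-(n*x3-n*p3))
        + (n*p4)*((n*x3-n*p3)-(n*x4-n*p4)) + (n*p5)*((n*x4-n*p4)-(n*x5-n*p5)) = 0 := by
      linear_combination n^2 * e
    rw [r2, r3, r4, r5] at e'
    unfold G
    linear_combination -e'
  have hd : ∀ a : ZMod K, x (a+2) - x (a+1) = 0 := by
    intro a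
    have := seq10 M n β (z^2) hf hz1 hz2 hcP hcQ hu (fun i : ℕ => x (a + i + 2) - x (a + i + 1))
      (by
        intro i
        have := hrec (a + i)
        simp only [Nat.cast_add, Nat.cast_ofNat]
        rw [show a + (i + 4) + 2 = a + (i : ZMod K) + 6 by ring, show a + (i + 4) + 1 = a + (i : ZMod K) + 5 by ring,
          show a + (i + 2) + 2 = a + (i : ZMod K) + 4 by ring, show a + (i + 2) + 1 = a + (i : ZMod K) + 3 by ring]
        exact this)
      (by
        intro i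
        have := hG (a + i)
        simp only [Nat.cast_add, Nat.cast_ofNat, Nat.cast_one]
        rw [show a + (i + 4) + 2 = a + (i : ZMod K) + 6 by ring, show a + (i + 4) + 1 = a + (i : ZMod K) + 5 by ring,
          show a + (i + 3) + 2 = a + (i : ZMod K) + 5 by ring, show a + (i + 3) + 1 = a + (i : ZMod K) + 4 by ring,
          show a + (i + 2) + 2 = a + (i : ZMod K) + 4 by ring, show a + (i + 2) + 1 = a + (i : ZMod K) + 3 by ring,
          show a + (i + 1) + 2 = a + (i : ZMod K) + 3 by ring, show a + (i + 1) + 1 = a + (i : ZMod K) + 2 by ring]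
        exact this)
    simpa using this
  have hstep : ∀ a : ZMod K, x (a+1) = x a := by
    intro a
    have := hd (a-1)
    rw [show a - 1 + 2 = a + 1 by ring, show a - 1 + 1 = a by ring] at this
    linarith
  have hnat : ∀ t : ℕ, x (t : ZMod K) = x 0 := by
    intro t
    induction t with
    | zero => simp
    | succ k ih => rw [Nat.cast_succ, hstep, ih]
  have hall' : ∀ i : ZMod K, x i = x 0 := by
    intro i
    have := hnat i.val
    rwa [ZMod.natCast_zmod_val] at this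
  intro i j
  rw [hall' i, hall' j]

end Pool.Agent.R238.HB
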