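import Pool.Agent.R238.HB.Defs

namespace Pool.Agent.R238.HB

/-- HB-P1: interpolation inequality (necessity). -/
def St_P1 : Prop :=
  ∀ (d : ℕ) (μ L : ℝ), μ < L → ∀ f : E d → ℝ, InClass μ L d f →
    ∃ Φ : E d → ℝ, ∀ x y : E d,
      Φ x + inner ℝ ((1 / (L - μ)) • (gradient f x - μ • x))
        ((y - (1 / (L - μ)) • (gradient f y - μ • y))
          - (x - (1 / (L - μ)) • (gradient f x - μ • x))) ≤ Φ y

/-- HB-P2: the function `m/2 |x|^2 + n/2 dist(x, conv S)^2`. -/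
def St_P2 : Prop :=
  ∀ (d : ℕ) (S : Set (E d)), S.Finite → S.Nonempty → ∀ m n : ℝ, 0 < m → 0 < n →
    ∃ f : E d → ℝ, InClass m (m + n) d f ∧
      ∀ x y : E d, y ∈ S → (∀ w ∈ S, inner ℝ (x - y) (w - y) ≤ 0) →
        gradient f x = m • x + n • (x - y)

end Pool.Agent.R238.HB
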