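import Pool.Agent.R238.HB.Core2

noncomputable section

namespace Pool.Agent.R238.HB

def W (M n β z x0 x1 x2 x3 x4 x5 : ℝ) : ℝ := - x0*x1*z^4*β + x0^2*z^4*β - x1*x2*z^4*β + x1^2*z^4*β - x2*x3*z^4*β + x2^2*z^4*β + (1/2)*x3^2*z^4*β - M*n*x0*x1*z^2 + M*n*x0^2*z^2 + M*n*x1^2*z^2 + 2*M*x0*x1*z^2*β - M*x0^2*z^2*β + M^2*x0*x1*z^2 - M^2*x0^2*z^2 - M^2*x1^2*z^2 - n*x0*x1*z^2*β + n*x0^2*z^2*β - x0^2*z^2*β^2 - 2*M*n*x0*x1*z + 2*M*n*x0^2*z + 2*M*n*x1^2*z + 4*M*x0*x1*z*β + 2*M*x0*x1*z^2 - M*x0*x2*z^2 - 2*M*x0^2*z*β - M*x0^2*z^2 + 2*M*x1*x2*z^2 - M*x1^2*z^2 + 2*M^2*x0*x1*z - 2*M^2*x0^2*z - 2*M^2*x1^2*z - 2*n*x0*x1*z*β - n*x0*x1*z^2 + n*x0*x2*z^2 + 2*n*x0^2*z*β - n*x1*x2*z^2 - x0*x1*z^2*β + 2*x0*x2*z^2*β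 - 2*x0*x3*z^2*β - 2*x0^2*z*β^2 - 2*x1*x2*z^2*β + 3*x1*x3*z^2*β - x1*x4*z^2*β - x2*x3*z^2*β + 2*x2*x4*z^2*β - x2*x5*z^2*β - x3*x4*z^2*β + x3*x5*z^2*β - M*n*x0*x1 - M*n*x0*x3 + 2*M*n*x0^2 - M*n*x1*x4 + 2*M*n*x1^2 + 4*M*x0*x1*z + 4*M*x0*x1*β - 2*M*x0*x2*z - M*x0*x2*β - M*x0*x4*β - 2*M*x0^2*z - M*x0^2*β + 4*M*x1*x2*z - M*x1*x3*β - 2*M*x1^2*z + M^2*x0*x1 + M^2*x0*x3 - 2*M^2*x0^2 + M^2*x1*x4 - 2*M^2*x1^2 - 2*n*x0*x1*z - 2*n*x0*x1*β + 2*n*x0*x2*z + n*x0*x4*β + n*x0^2*β - 2*n*x1*x2*z + 2*x0*x1*z*β + x0*x1*z^2 - 4*x0*x2*z*β + x0*x3*β^2 - x0^2*z^2 - 2*x0^2*β^2 + x1*x2*z^2 - x1^2*z^2 - x2^2*z^2 + 4*M*x0*x1 - 2*M*x0*x2 - M*x0*x4 - M*x0^2 + 4*M*x1*x2 - M*x1*x3 - M*x1*x5 - M*x1^2 - M*x2*x4 - 2*n*x0*x1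 + 2*n*x0*x2 - 2*n*x1*x2 + n*x1*x3 + n*x2*x4 + 2*x0*x1*z - 4*x0*x2*β - x0*x3*β + 2*x0*x4*β - 2*x0^2*z + 2*x0^2*β + 2*x1*x2*z - x1*x4*β + x1*x5*β - 2*x1^2*z + (3/2)*x1^2*β - 2*x2^2*z + x2^2*β - x3*x4*β + x3^2*β - x4*x5*β + x4^2*β + (1/2)*x5^2*β + x0*x1 + x0*x3 - 2*x0^2 + x1*x2 + x1*x4 - 2*x1^2 + x2*x5 - 2*x2^2

lemma tele (M n β z x0 x1 x2 x3 x4 x5 x6 : ℝ)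
    (h1 : (1+β)*(2*M-n) - (4*β - n*(1-β)) = 0)
    (h0 : M*(n-M) - (1-β)^2 - β*(2+2*z-z^2) = 0)
    (hr : n*(1-β)*(z^2+2*z+2) - 8*β*(1+z) = 0) :
    (1+z)^2 * (M*x2-β*x1-x3) * ((n*x2-(M*x2-β*x1-x3)) - (n*x1-(M*x1-β*x0-x2)))
      + (M*x2-β*x1-x3) * ((n*x2-(M*x2-β*x1-x3)) - (n*x5-(M*x5-β*x4-x6)))
      + β/2*((x6-x5)+z^2*(x4-x3)+(x2-x1))^2
      = W M n β z x1 x2 x3 x4 x5 x6 - W M n β z x0 x1 x2 x3 x4 x5 := by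
  unfold W
  linear_combination (x0*x1*z^2 - (1/2)*x0*x2*z^2 - (1/2)*x0^2*z^2 + 2*x0*x1*z - x0*x2*z - x0^2*z + 2*x0*x1 - x0*x2 - (1/2)*x0*x4 - (1/2)*x0^2) * h1 + (- x0*x1*z^2 + x0^2*z^2 - 2*x0*x1*z + 2*x0^2*z - x0*x1 - x0*x3 + 2*x0^2) * h0 + (- x0*x1 + x0*x2) * hr

end Pool.Agent.R238.HB
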